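import Mathlib

/-! Elementary finite-field lemmas needed for rational curves on cubic surfaces over finite fields.
Each `TaskX` is to be proved as `theorem taskX : TaskX`. -/

set_option autoImplicit false

namespace Pool.Agent.H574R3.CS

open Polynomial

/-- a cubic polynomial over a finite field of odd order `≥ 5` takes a square value
(`IsSquare 0` holds). Proof: otherwise `g ^ ((q-1)/2) + 1 = (X ^ q - X) * G`; differentiate, multiply
by `g`: `X ^ q - X` divides `g * G - ((q-1)/2) g'`, whose degree is `≤ (q+3)/2 < q`. -/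
def TaskA : Prop := ∀ (K : Type) [Field K] [Fintype K], ringChar K ≠ 2 → 5 ≤ Fintype.card K →
  ∀ g : K[X], g.natDegree = 3 → ∃ s : K, IsSquare (g.eval s)

/-- `q ≡ 1 mod 3`: a nondegenerate cubic and any other cubic have a common value.
Proof: the first has value set of size `≥ (2q+1)/3`, the second `≥ (q+2)/3`. -/
def TaskB : Prop := ∀ (K : Type) [Field K] [Fintype K], Fintype.card K % 3 = 1 →
  ∀ (a b c d a' b' c' d' : K), a ≠ 0 → a' ≠ 0 → b ^ 2 ≠ 3 * a * c →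
    ∃ x y : K, a * x ^ 3 + b * x ^ 2 + c * x + d = a' * y ^ 3 + b' * y ^ 2 + c' * y + d'

/-- three elements: a function `c₃ + quadratic + linear + const` with `c₃` anisotropic takes a
value `0` or `1` times `-1`... precisely: `-C₃(X,Y,1)` is a square somewhere. -/
def TaskC : Prop := ∀ (K : Type) [Field K] [Fintype K], Fintype.card K = 3 →
  ∀ (a b c d h1 h2 h3 l1 l2 k : K),
    (∀ X Y : K, a * X ^ 3 + b * X ^ 2 * Y + c * X * Y ^ 2 + d * Y ^ 3 = 0 → X = 0 ∧ Y = 0) →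
    ∃ X Y : K, IsSquare (-(a * X ^ 3 + b * X ^ 2 * Y + c * X * Y ^ 2 + d * Y ^ 3 +
      h1 * X ^ 2 + h2 * X * Y + h3 * Y ^ 2 + l1 * X + l2 * Y + k))

/-- characteristic two, at least four elements: `W² + W = C₃(X,Y,1)` has a solution if the leading
form is anisotropic. -/
def TaskD : Prop := ∀ (K : Type) [Field K] [Fintype K], ringChar K = 2 → 4 ≤ Fintype.card K →
  ∀ (a b c d h1 h2 h3 l1 l2 k : K),
    (∀ X Y : K, a * X ^ 3 + b * X ^ 2 * Y + c * X * Y ^ 2 + d * Y ^ 3 = 0 → X = 0 ∧ Y = 0) →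
    ∃ X Y W : K, W ^ 2 + W = a * X ^ 3 + b * X ^ 2 * Y + c * X * Y ^ 2 + d * Y ^ 3 +
      h1 * X ^ 2 + h2 * X * Y + h3 * Y ^ 2 + l1 * X + l2 * Y + k

/-- characteristic two, at least eight elements: a good point on `W² + W = c₃(X,Y)`. -/
def TaskE : Prop := ∀ (K : Type) [Field K] [Fintype K], ringChar K = 2 → 8 ≤ Fintype.card K →
  ∀ (a b c d : K),
    (∀ X Y : K, a * X ^ 3 + b * X ^ 2 * Y + c * X * Y ^ 2 + d * Y ^ 3 = 0 → X = 0 ∧ Y = 0) →
    ∃ X Y W : K, W ^ 2 + W = a * X ^ 3 + b * X ^ 2 * Y + c * X * Y ^ 2 + d * Y ^ 3 ∧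
      ¬ (a * X + b * Y = (a * X ^ 2 + c * Y ^ 2) ^ 2 ∧ c * X + d * Y = (b * X ^ 2 + d * Y ^ 2) ^ 2)

/-- four elements: a good point, or the form is `α X³ + β Y³` in suitable coordinates with `α = 1`
and `β ∉ {0, 1}`. -/
def TaskF : Prop := ∀ (K : Type) [Field K] [Fintype K], Fintype.card K = 4 →
  ∀ (a b c d : K),
    (∀ X Y : K, a * X ^ 3 + b * X ^ 2 * Y + c * X * Y ^ 2 + d * Y ^ 3 = 0 → X = 0 ∧ Y = 0) →
    (∃ X Y W : K, W ^ 2 + W = a * X ^ 3 + b * X ^ 2 * Y + c * X * Y ^ 2 + d * Y ^ 3 ∧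
      ¬ (a * X + b * Y = (a * X ^ 2 + c * Y ^ 2) ^ 2 ∧
        c * X + d * Y = (b * X ^ 2 + d * Y ^ 2) ^ 2)) ∨
    ∃ p q r s β : K, p * s - q * r ≠ 0 ∧ β ≠ 0 ∧ β ≠ 1 ∧
      -- `c₃(p X + q Y, r X + s Y) = X³ + β Y³`, coefficient by coefficient
      a * p ^ 3 + b * p ^ 2 * r + c * p * r ^ 2 + d * r ^ 3 = 1 ∧
      3 * a * p ^ 2 * q + b * (p ^ 2 * s + 2 * p * q * r) + c * (q * r ^ 2 + 2 * p * r * s) +
        3 * d * r ^ 2 * s = 0 ∧
      3 * a * p * q ^ 2 + b * (q ^ 2 * r + 2 * p * q * s) + c * (p * s ^ 2 + 2 * q * r * s) +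
        3 * d * r * s ^ 2 = 0 ∧
      a * q ^ 3 + b * q ^ 2 * s + c * q * s ^ 2 + d * s ^ 3 = β

end Pool.Agent.H574R3.CS
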