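import Pool.Agent.H574R3.CS.Defs
import Pool.Agent.H574R3.CS.Tasks

/-! Statements of the geometric tasks. Each `TaskX : Prop` is to be proved as
`theorem taskX : TaskX`. -/

set_option autoImplicit false

namespace Pool.Agent.H574R3.CS

open Polynomial

/-- Lemma S: if `x` lies in the tangent plane at another `K`-point `y`, there is a curve through
`x`. Choose `e` with `D a y e = 0` and `x, y, e` independent (`ker (D a y ·)` has dimension ≥ 3).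
If `D a x y = 0` the line `x + t y` works; else `r(t) = D(x+te; y)(x+te) - F(x+te) y`. -/
def TaskS : Prop := ∀ (K : Type) [Field K] (a : Ten K) (x y : Fin 4 → K), cub a x = 0 →
  cub a y = 0 → D a y x = 0 → LinearIndependent K ![x, y] → Curve a x

/-- Lemma U: from a rational curve `r` with `z0 = r(0)` not in the tangent plane at `x`.
`A = D x z0`, `B = D z0 x`. If `B = 0` use Lemma S with `y = z0`. Else `w = B x - A z0` is on the
surface and `P(t) = D(r(t); w) w - D(w; r(t)) r(t)` satisfies `cub P = 0`, `P(0) = B³ x`. -/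
def TaskU : Prop := ∀ (K : Type) [Field K] (a : Ten K) (x : Fin 4 → K) (r : Fin 4 → K[X]),
  cub a x = 0 → cub a r = 0 → D a x (fun i => (r i).eval 0) ≠ 0 →
  (∃ i j, C ((r i).eval 0) * r j ≠ C ((r j).eval 0) * r i) → Curve a x

/-- Lemma V: the section by the plane `y, e, e'` singular at `y`, parametrised:
`r(t) = D(e+te'; y)(e+te') - F(e+te') y`. -/
def TaskV : Prop := ∀ (K : Type) [Field K] (a : Ten K) (y e e' : Fin 4 → K), cub a y = 0 →
  D a y e = 0 → D a y e' = 0 → LinearIndependent K ![y, e, e'] → D a e y ≠ 0 →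
  ∃ r : Fin 4 → K[X], cub a r = 0 ∧
    (∀ i, (r i).eval 0 = D a e y * e i - cub a e * y i) ∧
    ∃ i j, C ((r i).eval 0) * r j ≠ C ((r j).eval 0) * r i

/-- transfer under linear substitution: values and derivatives -/
def TaskT1 : Prop := ∀ (K : Type) [Field K] (a : Ten K) (g : Matrix (Fin 4) (Fin 4) K)
  (A : Type) [CommRing A] [Algebra K A] (u v : Fin 4 → A),
  cub (tr a g) u = cub a (mulV g u) ∧ D (tr a g) u v = D a (mulV g u) (mulV g v)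

/-- transfer of curves -/
def TaskT2 : Prop := ∀ (K : Type) [Field K] (a : Ten K) (g : Matrix (Fin 4) (Fin 4) K)
  (x : Fin 4 → K), IsUnit g.det → Curve (tr a g) x → Curve a (mulV g x)

/-- transfer of smoothness -/
def TaskT3 : Prop := ∀ (K : Type) [Field K] (a : Ten K) (g : Matrix (Fin 4) (Fin 4) K),
  IsUnit g.det → Smooth a → Smooth (tr a g)

/-- adapted coordinates at `x`: columns `e0, e1, e2, x` with `D a x e0 = D a x e1 = 0`,
`D a x e2 = 1`. -/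
def TaskR : Prop := ∀ (K : Type) [Field K] (a : Ten K), Smooth a → ∀ x : Fin 4 → K, x ≠ 0 →
  cub a x = 0 → ∃ g : Matrix (Fin 4) (Fin 4) K, IsUnit g.det ∧ mulV g e3 = x ∧
    ∃ n : NF K, IsNF (tr a g) n

/-- the affine substitution `(X+X0 Z, Y+Y0 Z, Z, W+uX+vY+wZ)` on normal forms with `q = 0` -/
def NF.aff {K : Type} [Field K] (n : NF K) (X0 Y0 u v w : K) : NF K where
  q1 := 0
  q2 := 0
  q3 := 0
  m1 := n.m1 + 2 * u
  m2 := n.m2 + 2 * v
  m3 := (n.m1 * X0 + n.m2 * Y0 + n.m3) + 2 * w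
  a := n.a
  b := n.b
  c := n.c
  d := n.d
  h1 := n.h1 + 3 * n.a * X0 + n.b * Y0 + u ^ 2 + u * n.m1
  h2 := n.h2 + 2 * n.b * X0 + 2 * n.c * Y0 + 2 * u * v + u * n.m2 + v * n.m1
  h3 := n.h3 + n.c * X0 + 3 * n.d * Y0 + v ^ 2 + v * n.m2
  l1 := n.l1 + 3 * n.a * X0 ^ 2 + 2 * n.b * X0 * Y0 + n.c * Y0 ^ 2 + 2 * n.h1 * X0 +
    n.h2 * Y0 + 2 * u * w + u * (n.m1 * X0 + n.m2 * Y0 + n.m3) + w * n.m1
  l2 := n.l2 + n.b * X0 ^ 2 + 2 * n.c * X0 * Y0 + 3 * n.d * Y0 ^ 2 + n.h2 * X0 +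
    2 * n.h3 * Y0 + 2 * v * w + v * (n.m1 * X0 + n.m2 * Y0 + n.m3) + w * n.m2
  k := n.k + n.a * X0 ^ 3 + n.b * (X0 ^ 2 * Y0) + n.c * (X0 * Y0 ^ 2) + n.d * Y0 ^ 3 +
    n.h1 * X0 ^ 2 + n.h2 * (X0 * Y0) + n.h3 * Y0 ^ 2 + n.l1 * X0 + n.l2 * Y0 + w ^ 2 +
    w * (n.m1 * X0 + n.m2 * Y0 + n.m3)

/-- the matrix of the affine substitution -/
def affM {K : Type} [Field K] (X0 Y0 u v w : K) : Matrix (Fin 4) (Fin 4) K :=
  !![1, 0, X0, 0; 0, 1, Y0, 0; 0, 0, 1, 0; u, v, w, 1]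

/-- the affine substitution on normal forms (uses `TaskT1`, `TaskT2`) -/
def TaskAff : Prop := TaskT1 → TaskT2 → ∀ (K : Type) [Field K] (a : Ten K) (n : NF K)
  (X0 Y0 u v w : K), IsNF a n → n.q1 = 0 → n.q2 = 0 → n.q3 = 0 →
    IsNF (tr a (affM X0 Y0 u v w)) (n.aff X0 Y0 u v w) ∧
    (Curve (tr a (affM X0 Y0 u v w)) e3 → Curve a e3)

/-- the section by the tangent plane at `x = e3`: either it gives a curve, or it is one of the two
exceptional shapes. `F(X,Y,0,W) = W Q(X,Y) + c₃(X,Y)`. Common `K`-root: a line. `Q` has a `K`-root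
`(s,t)`: parametrise by lines through `x` starting there. `Q` anisotropic: `θ` root in the closure of
`Q(1,T)`; either `c₃(1,θ) ≠ 0` and `(Q, TQ, 0, -c₃)` works, or `Q ∣ c₃`. -/
def TaskL : Prop := ∀ (K : Type) [Field K] (a : Ten K) (n : NF K), IsNF a n →
  Curve a e3 ∨ ((n.q1 = 0 ∧ n.q2 = 0 ∧ n.q3 = 0) ∧ n.Aniso) ∨
  ((∀ X Y : K, n.q1 * X ^ 2 + n.q2 * (X * Y) + n.q3 * Y ^ 2 = 0 → X = 0 ∧ Y = 0) ∧
    ∃ p0 p1 : K, n.a = n.q1 * p0 ∧ n.b = n.q2 * p0 + n.q1 * p1 ∧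
      n.c = n.q3 * p0 + n.q2 * p1 ∧ n.d = n.q3 * p1)

/-- tangent section = two conjugate lines through `x` and a third line (see note). -/
def TaskCA : Prop := TaskU → ∀ (K : Type) [Field K] [Fintype K] (a : Ten K) (n : NF K),
  IsNF a n → Smooth a →
  (∀ X Y : K, n.q1 * X ^ 2 + n.q2 * (X * Y) + n.q3 * Y ^ 2 = 0 → X = 0 ∧ Y = 0) →
  (∃ p0 p1 : K, n.a = n.q1 * p0 ∧ n.b = n.q2 * p0 + n.q1 * p1 ∧
      n.c = n.q3 * p0 + n.q2 * p1 ∧ n.d = n.q3 * p1) → Curve a e3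

/-- arithmetic lemma (from `TaskB`): point on `c₃(X,Y) + k Z (Z + λ₁X + λ₂Y)² = 0`. -/
def TaskZ : Prop := TaskB → ∀ (K : Type) [Field K] [Fintype K] (a b c d k p q : K), k ≠ 0 →
  (∀ X Y : K, a * X ^ 3 + b * (X ^ 2 * Y) + c * (X * Y ^ 2) + d * Y ^ 3 = 0 → X = 0 ∧ Y = 0) →
  ∃ X Y Z : K, Z ≠ 0 ∧
    a * X ^ 3 + b * (X ^ 2 * Y) + c * (X * Y ^ 2) + d * Y ^ 3 +
      k * Z * (Z + p * X + q * Y) ^ 2 = 0

/-- odd characteristic: reduction to `q = 0, m = 0, k = -w²` (existence of a second rational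
point) by an affine substitution. -/
def TaskOdd1 : Prop := TaskA → TaskC → TaskAff → TaskT1 → TaskT2 →
  ∀ (K : Type) [Field K] [Fintype K] (a : Ten K) (n : NF K), (2 : K) ≠ 0 → IsNF a n →
  n.q1 = 0 → n.q2 = 0 → n.q3 = 0 → n.Aniso →
  ∃ (a' : Ten K) (n' : NF K) (w : K), IsNF a' n' ∧ n'.q1 = 0 ∧ n'.q2 = 0 ∧ n'.q3 = 0 ∧
    n'.m1 = 0 ∧ n'.m2 = 0 ∧ n'.m3 = 0 ∧ n'.Aniso ∧ n'.k = -w ^ 2 ∧
    (Curve a' e3 → Curve a e3)

/-- odd characteristic, `F = W²Z + c₃ + Z h + Z² l - w² Z³`. -/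
def TaskOdd2 : Prop := TaskS → TaskU → TaskV → TaskZ → TaskB →
  ∀ (K : Type) [Field K] [Fintype K] (a : Ten K) (n : NF K) (w : K), (2 : K) ≠ 0 → IsNF a n →
  n.q1 = 0 → n.q2 = 0 → n.q3 = 0 → n.m1 = 0 → n.m2 = 0 → n.m3 = 0 → n.Aniso →
  n.k = -w ^ 2 → Curve a e3

/-- characteristic two, there is a `K`-point with `m(X,Y,1) = 0`: Lemma S. -/
def TaskEven0 : Prop := TaskS → ∀ (K : Type) [Field K] [Fintype K] (a : Ten K) (n : NF K),
  (2 : K) = 0 → IsNF a n → n.q1 = 0 → n.q2 = 0 → n.q3 = 0 →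
  ¬ (n.m1 = 0 ∧ n.m2 = 0 ∧ n.m3 ≠ 0) → Curve a e3

/-- characteristic two, `F = W²Z + m₃WZ² + c₃ + Z h + Z² l` with `h ≠ (l/m₃)²`: Lemmas V and U at
`y = (0,0,1,0)`. -/
def TaskEven1 : Prop := TaskU → TaskV → ∀ (K : Type) [Field K] (a : Ten K) (n : NF K),
  (2 : K) = 0 → IsNF a n → n.q1 = 0 → n.q2 = 0 → n.q3 = 0 → n.m1 = 0 → n.m2 = 0 → n.m3 ≠ 0 →
  n.k = 0 → n.Aniso →
  ¬ (n.m3 ^ 2 * n.h1 = n.l1 ^ 2 ∧ n.h2 = 0 ∧ n.m3 ^ 2 * n.h3 = n.l2 ^ 2) → Curve a e3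

/-- characteristic two, special surface `F = W²Z + m₃WZ² + c₃`, at least 8 elements: a good point
from `TaskE` (for the form `c₃ / m₃²`, `W = m₃ W'`), translation (`TaskAff`) and `TaskEven1`. -/
def TaskEven2 : Prop := TaskE → TaskAff → TaskT1 → TaskT2 → TaskEven1 → TaskU → TaskV →
  ∀ (K : Type) [Field K] [Fintype K] (a : Ten K) (n : NF K),
  (2 : K) = 0 → 8 ≤ Fintype.card K → IsNF a n → n.q1 = 0 → n.q2 = 0 → n.q3 = 0 → n.m1 = 0 →
  n.m2 = 0 → n.m3 ≠ 0 → n.h1 = 0 → n.h2 = 0 → n.h3 = 0 → n.l1 = 0 → n.l2 = 0 → n.k = 0 →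
  n.Aniso → Curve a e3

/-- the same with 4 elements: `TaskF`; in the second case the curve
`X = N²+N, Y = t(N²+N+1), Z = N, W = N³+βN+1` with `N = β t³` lies on `W²Z+WZ²+X³+βY³ = 0`
(`β²+β+1 = 0`, characteristic two) and passes through `(0,0,0,1)` at `t = 0`. -/
def TaskEven3 : Prop := TaskF → TaskAff → TaskT1 → TaskT2 → TaskEven1 → TaskU → TaskV →
  ∀ (K : Type) [Field K] [Fintype K] (a : Ten K) (n : NF K),
  (2 : K) = 0 → Fintype.card K = 4 → IsNF a n → n.q1 = 0 → n.q2 = 0 → n.q3 = 0 → n.m1 = 0 →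
  n.m2 = 0 → n.m3 ≠ 0 → n.h1 = 0 → n.h2 = 0 → n.h3 = 0 → n.l1 = 0 → n.l2 = 0 → n.k = 0 →
  n.Aniso → Curve a e3

/-- two elements, all cases `m = (0,0,1)` (see note for the explicit curves). -/
def TaskTwo : Prop := TaskAff → TaskT1 → TaskT2 → TaskEven1 → TaskU → TaskV →
  ∀ (K : Type) [Field K] [Fintype K] (a : Ten K) (n : NF K),
  Fintype.card K = 2 → IsNF a n → n.q1 = 0 → n.q2 = 0 → n.q3 = 0 → n.m1 = 0 →
  n.m2 = 0 → n.m3 ≠ 0 → n.Aniso → Curve a e3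

/-- a rational curve on `F = 0` defined over `K` through `x`: a base point free morphism
`P¹ → P³` of positive degree, given by forms over `K`, with image in `F = 0`, and whose image
(over the algebraic closure) contains `x`. -/
def RationalCurveThrough {K : Type} [Field K] (F : MvPolynomial (Fin 4) K) (x : Fin 4 → K) :
    Prop :=
  ∃ (n : ℕ) (f : Fin 4 → MvPolynomial (Fin 2) K), 0 < n ∧ (∀ i, (f i).IsHomogeneous n) ∧
    (∀ u : Fin 2 → AlgebraicClosure K, u ≠ 0 → ∃ i, MvPolynomial.aeval u (f i) ≠ 0) ∧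
    MvPolynomial.aeval f F = 0 ∧
    ∃ u : Fin 2 → AlgebraicClosure K, u ≠ 0 ∧ ∃ c : AlgebraicClosure K, c ≠ 0 ∧
      ∀ i, MvPolynomial.aeval u (f i) = c * algebraMap K (AlgebraicClosure K) (x i)

/-- from `Curve` to forms: divide by the gcd, homogenise. -/
def TaskN : Prop := ∀ (K : Type) [Field K] (F : MvPolynomial (Fin 4) K) (a : Ten K),
  (∀ (A : Type) [CommRing A] [Algebra K A] (v : Fin 4 → A), MvPolynomial.aeval v F = cub a v) →
  ∀ x : Fin 4 → K, x ≠ 0 → Curve a x → RationalCurveThrough F x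

/-- every cubic form comes from a tensor -/
def TaskM : Prop := ∀ (K : Type) [Field K] (F : MvPolynomial (Fin 4) K), F.IsHomogeneous 3 →
  ∃ a : Ten K, (∀ (A : Type) [CommRing A] [Algebra K A] (v : Fin 4 → A),
      MvPolynomial.aeval v F = cub a v) ∧
    ∀ (A : Type) [CommRing A] [Algebra K A] (v w : Fin 4 → A),
      ∑ i, w i * MvPolynomial.aeval v (MvPolynomial.pderiv i F) = D a v w

end Pool.Agent.H574R3.CS
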