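import Mathlib

/-! Cubic forms in four variables given by coefficient tensors, their derivatives, linear
substitutions, and rational curves on them. -/

set_option autoImplicit false

namespace Pool.Agent.H574R3.CS

open Polynomial

section
variable {K : Type} [Field K]

/-- coefficient tensor of a cubic form in four variables -/
abbrev Ten (K : Type) : Type := Fin 4 → Fin 4 → Fin 4 → K

/-- value of the cubic form `∑ a_{ijk} v_i v_j v_k` -/
noncomputable def cub (a : Ten K) {A : Type} [CommRing A] [Algebra K A] (v : Fin 4 → A) : A :=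
  ∑ i, ∑ j, ∑ k, algebraMap K A (a i j k) * (v i * v j * v k)

/-- derivative of the cubic form at `u` in direction `v` -/
noncomputable def D (a : Ten K) {A : Type} [CommRing A] [Algebra K A] (u v : Fin 4 → A) : A :=
  ∑ i, ∑ j, ∑ k, algebraMap K A (a i j k) *
    (v i * u j * u k + u i * v j * u k + u i * u j * v k)

/-- there is a rational curve on `cub a = 0`, defined over `K`, through `x`:
a nonconstant polynomial parametrisation passing through `x` at a geometric parameter. -/
def Curve (a : Ten K) (x : Fin 4 → K) : Prop :=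
  ∃ P : Fin 4 → K[X], cub a P = 0 ∧
    (∃ t c : AlgebraicClosure K, c ≠ 0 ∧
      ∀ i, aeval t (P i) = c * algebraMap K (AlgebraicClosure K) (x i)) ∧
    ∃ i j, C (x i) * P j ≠ C (x j) * P i

/-- smoothness of the surface `cub a = 0` over the algebraic closure -/
def Smooth (a : Ten K) : Prop :=
  ∀ v : Fin 4 → AlgebraicClosure K, v ≠ 0 → cub a v = 0 →
    ∃ w : Fin 4 → AlgebraicClosure K, D a v w ≠ 0

/-- linear substitution in the tensor -/
def tr (a : Ten K) (g : Matrix (Fin 4) (Fin 4) K) : Ten K :=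
  fun p q r => ∑ i, ∑ j, ∑ k, a i j k * (g i p * g j q * g k r)

/-- a matrix over `K` acting on vectors over a `K`-algebra -/
noncomputable def mulV (g : Matrix (Fin 4) (Fin 4) K) {A : Type} [CommRing A] [Algebra K A]
    (u : Fin 4 → A) : Fin 4 → A :=
  fun i => ∑ p, algebraMap K A (g i p) * u p

section basics
variable {A : Type} [CommRing A] [Algebra K A]

theorem cub_comb (a : Ten K) (u v : Fin 4 → A) (α β : A) :
    cub a (fun i => α * u i + β * v i) =
      α ^ 3 * cub a u + α ^ 2 * β * D a u v + α * β ^ 2 * D a v u + β ^ 3 * cub a v := by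
  simp only [cub, D, Finset.mul_sum, ← Finset.sum_add_distrib]
  refine Finset.sum_congr rfl fun i _ => Finset.sum_congr rfl fun j _ =>
    Finset.sum_congr rfl fun k _ => ?_
  ring

theorem D_comb (a : Ten K) (u v w : Fin 4 → A) (α β : A) :
    D a u (fun i => α * v i + β * w i) = α * D a u v + β * D a u w := by
  simp only [D, Finset.mul_sum, ← Finset.sum_add_distrib]
  refine Finset.sum_congr rfl fun i _ => Finset.sum_congr rfl fun j _ =>
    Finset.sum_congr rfl fun k _ => ?_
  ring

theorem D_self (a : Ten K) (u : Fin 4 → A) : D a u u = 3 * cub a u := by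
  simp only [D, cub, Finset.mul_sum]
  refine Finset.sum_congr rfl fun i _ => Finset.sum_congr rfl fun j _ =>
    Finset.sum_congr rfl fun k _ => ?_
  ring

theorem map_cub (a : Ten K) {B : Type} [CommRing B] [Algebra K B] (φ : A →ₐ[K] B)
    (v : Fin 4 → A) : φ (cub a v) = cub a (fun i => φ (v i)) := by
  simp only [cub, map_sum, map_mul, AlgHom.commutes]

theorem map_D (a : Ten K) {B : Type} [CommRing B] [Algebra K B] (φ : A →ₐ[K] B)
    (u v : Fin 4 → A) : φ (D a u v) = D a (fun i => φ (u i)) (fun i => φ (v i)) := by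
  simp only [D, map_sum, map_mul, map_add, AlgHom.commutes]

end basics

/-- coefficients of the normal form at the point `(0,0,0,1)` with tangent plane `Z = 0` -/
structure NF (K : Type) where
  q1 : K
  q2 : K
  q3 : K
  m1 : K
  m2 : K
  m3 : K
  a : K
  b : K
  c : K
  d : K
  h1 : K
  h2 : K
  h3 : K
  l1 : K
  l2 : K
  k : K

/-- the cubic form of the normal form -/
noncomputable def NF.F (n : NF K) {A : Type} [CommRing A] [Algebra K A] (X Y Z W : A) : A :=
  W ^ 2 * Z + W * (algebraMap K A n.q1 * X ^ 2 + algebraMap K A n.q2 * (X * Y) +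
    algebraMap K A n.q3 * Y ^ 2) +
  W * Z * (algebraMap K A n.m1 * X + algebraMap K A n.m2 * Y + algebraMap K A n.m3 * Z) +
  (algebraMap K A n.a * X ^ 3 + algebraMap K A n.b * (X ^ 2 * Y) +
    algebraMap K A n.c * (X * Y ^ 2) + algebraMap K A n.d * Y ^ 3) +
  Z * (algebraMap K A n.h1 * X ^ 2 + algebraMap K A n.h2 * (X * Y) +
    algebraMap K A n.h3 * Y ^ 2) +
  Z ^ 2 * (algebraMap K A n.l1 * X + algebraMap K A n.l2 * Y) + algebraMap K A n.k * Z ^ 3

/-- its derivative at `(X,Y,Z,W)` in direction `(X',Y',Z',W')` -/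
noncomputable def NF.DF (n : NF K) {A : Type} [CommRing A] [Algebra K A]
    (X Y Z W X' Y' Z' W' : A) : A :=
  X' * (W * (2 * algebraMap K A n.q1 * X + algebraMap K A n.q2 * Y) +
      W * Z * algebraMap K A n.m1 +
      (3 * algebraMap K A n.a * X ^ 2 + 2 * algebraMap K A n.b * (X * Y) +
        algebraMap K A n.c * Y ^ 2) +
      Z * (2 * algebraMap K A n.h1 * X + algebraMap K A n.h2 * Y) +
      Z ^ 2 * algebraMap K A n.l1) +
  Y' * (W * (algebraMap K A n.q2 * X + 2 * algebraMap K A n.q3 * Y) +
      W * Z * algebraMap K A n.m2 +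
      (algebraMap K A n.b * X ^ 2 + 2 * algebraMap K A n.c * (X * Y) +
        3 * algebraMap K A n.d * Y ^ 2) +
      Z * (algebraMap K A n.h2 * X + 2 * algebraMap K A n.h3 * Y) +
      Z ^ 2 * algebraMap K A n.l2) +
  Z' * (W ^ 2 + W * (algebraMap K A n.m1 * X + algebraMap K A n.m2 * Y +
        algebraMap K A n.m3 * Z) + W * Z * algebraMap K A n.m3 +
      (algebraMap K A n.h1 * X ^ 2 + algebraMap K A n.h2 * (X * Y) +
        algebraMap K A n.h3 * Y ^ 2) +
      2 * Z * (algebraMap K A n.l1 * X + algebraMap K A n.l2 * Y) +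
      3 * algebraMap K A n.k * Z ^ 2) +
  W' * (2 * W * Z + (algebraMap K A n.q1 * X ^ 2 + algebraMap K A n.q2 * (X * Y) +
        algebraMap K A n.q3 * Y ^ 2) +
      Z * (algebraMap K A n.m1 * X + algebraMap K A n.m2 * Y + algebraMap K A n.m3 * Z))

/-- the tensor `a` represents the normal form `n` -/
def IsNF (a : Ten K) (n : NF K) : Prop :=
  (∀ (A : Type) [CommRing A] [Algebra K A] (v : Fin 4 → A),
    cub a v = n.F (v 0) (v 1) (v 2) (v 3)) ∧
  ∀ (A : Type) [CommRing A] [Algebra K A] (u v : Fin 4 → A),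
    D a u v = n.DF (u 0) (u 1) (u 2) (u 3) (v 0) (v 1) (v 2) (v 3)

/-- the binary cubic form of the normal form has no nontrivial zero over `K` -/
def NF.Aniso (n : NF K) : Prop :=
  ∀ X Y : K, n.a * X ^ 3 + n.b * (X ^ 2 * Y) + n.c * (X * Y ^ 2) + n.d * Y ^ 3 = 0 →
    X = 0 ∧ Y = 0

/-- the point `(0,0,0,1)` -/
def e3 : Fin 4 → K := ![0, 0, 0, 1]

end

end Pool.Agent.H574R3.CS
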