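import Pool.Agent.H574R3.CS.Stmts

/-! Task `Even2`: characteristic two, the special surface `F = W²Z + m₃WZ² + c₃`, at least eight
elements. -/

set_option autoImplicit false

namespace Pool.Agent.H574R3.CS

open Polynomial

theorem taskEven2 : TaskEven2 := by
  intro hE hAff hT1 hT2 hEven1 hU hV K _ _ a n h2 hcard hNF hq1 hq2 hq3 hm1 hm2 hm3 hh1 hh2 hh3
    hl1 hl2 hk hani
  have hchar : ringChar K = 2 := by
    have hdvd : ringChar K ∣ 2 := by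
      have h2' : ((2 : ℕ) : K) = 0 := by exact_mod_cast h2
      exact (ringChar.spec K 2).mp h2'
    have hne : ringChar K ≠ 1 := CharP.ringChar_ne_one
    rcases (Nat.dvd_prime Nat.prime_two).mp hdvd with h | h
    · exact absurd h hne
    · exact h
  have hm : n.m3 ^ 2 ≠ 0 := pow_ne_zero 2 hm3
  obtain ⟨X0, Y0, W, hW, hgood⟩ := hE K hchar hcard (n.a / n.m3 ^ 2) (n.b / n.m3 ^ 2)
    (n.c / n.m3 ^ 2) (n.d / n.m3 ^ 2) (by
      intro X Y hXY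
      apply hani X Y
      field_simp at hXY
      linear_combination hXY)
  obtain ⟨hNF', hcurve⟩ := hAff hT1 hT2 K a n X0 Y0 0 0 (n.m3 * W) hNF hq1 hq2 hq3
  apply hcurve
  have hW' : n.m3 ^ 2 * (W ^ 2 + W) = n.a * X0 ^ 3 + n.b * X0 ^ 2 * Y0 + n.c * X0 * Y0 ^ 2 +
      n.d * Y0 ^ 3 := by
    rw [hW]
    field_simp
  apply hEven1 hU hV K (tr a (affM X0 Y0 0 0 (n.m3 * W))) (n.aff X0 Y0 0 0 (n.m3 * W)) h2 hNF'
    rfl rfl rfl
  · simp [NF.aff, hm1]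
  · simp [NF.aff, hm2]
  · show (n.m1 * X0 + n.m2 * Y0 + n.m3) + 2 * (n.m3 * W) ≠ 0
    rw [hm1, hm2, h2]
    simpa using hm3
  · show n.k + n.a * X0 ^ 3 + n.b * (X0 ^ 2 * Y0) + n.c * (X0 * Y0 ^ 2) + n.d * Y0 ^ 3 +
      n.h1 * X0 ^ 2 + n.h2 * (X0 * Y0) + n.h3 * Y0 ^ 2 + n.l1 * X0 + n.l2 * Y0 +
      (n.m3 * W) ^ 2 + (n.m3 * W) * (n.m1 * X0 + n.m2 * Y0 + n.m3) = 0
    rw [hk, hh1, hh2, hh3, hl1, hl2, hm1, hm2]
    linear_combination (-1 : K) * hW' + (n.m3 ^ 2 * (W ^ 2 + W)) * h2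
  · exact hani
  · rintro ⟨e1, -, e3⟩
    apply hgood
    have e1' : n.m3 ^ 2 * (n.a * X0 + n.b * Y0) = (n.a * X0 ^ 2 + n.c * Y0 ^ 2) ^ 2 := by
      have e := e1
      simp only [NF.aff, hh1, hh2, hl1, hm1, hm2] at e
      linear_combination e - (n.m3 ^ 2 * n.a * X0 + (2 * n.m3 * (n.m3 * W) +
        2 * (n.m3 * W) ^ 2) * (3 * n.a * X0 + n.b * Y0)) * h2 +
        (n.a * X0 ^ 2 + n.b * X0 * Y0) * (4 * n.a * X0 ^ 2 + 2 * n.b * X0 * Y0 +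
          2 * n.c * Y0 ^ 2) * h2
    have e3' : n.m3 ^ 2 * (n.c * X0 + n.d * Y0) = (n.b * X0 ^ 2 + n.d * Y0 ^ 2) ^ 2 := by
      have e := e3
      simp only [NF.aff, hh2, hh3, hl2, hm1, hm2] at e
      linear_combination e - (n.m3 ^ 2 * n.d * Y0 + (2 * n.m3 * (n.m3 * W) +
        2 * (n.m3 * W) ^ 2) * (n.c * X0 + 3 * n.d * Y0)) * h2 +
        (n.c * X0 * Y0 + n.d * Y0 ^ 2) * (2 * n.b * X0 ^ 2 + 2 * n.c * X0 * Y0 +
          4 * n.d * Y0 ^ 2) * h2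
    constructor
    · field_simp
      linear_combination e1'
    · field_simp
      linear_combination e3'

end Pool.Agent.H574R3.CS
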