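import Pool.Agent.H574R3.CS.Stmts

/-! Assembly of the case analysis. -/

set_option autoImplicit false

namespace Pool.Agent.H574R3.CS

open Polynomial

/-- all the pieces -/
structure Pieces : Prop where
  A : TaskA
  B : TaskB
  C : TaskC
  D : TaskD
  E : TaskE
  F : TaskF
  S : TaskS
  U : TaskU
  V : TaskV
  T1 : TaskT1
  T2 : TaskT2
  T3 : TaskT3
  R : TaskR
  Aff : TaskAff
  L : TaskL
  CA : TaskCA
  Z : TaskZ
  Odd1 : TaskOdd1
  Odd2 : TaskOdd2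
  Even0 : TaskEven0
  Even1 : TaskEven1
  Even2 : TaskEven2
  Even3 : TaskEven3
  Two : TaskTwo

section
variable {K : Type} [Field K] [Fintype K]

theorem card_even (h2 : (2 : K) = 0) : ∃ n : ℕ+, Fintype.card K = 2 ^ (n : ℕ) := by
  have : CharP K 2 := CharTwo.of_one_ne_zero_of_two_eq_zero one_ne_zero h2
  obtain ⟨n, _, hn⟩ := FiniteField.card K 2
  exact ⟨n, hn⟩

/-- characteristic two, `F = W²Z + m₃WZ² + c₃ + Zh + Z²l`, `k = 0`, at least four elements -/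
theorem even_k0 (p : Pieces) (a : Ten K) (n : NF K) (h2 : (2 : K) = 0)
    (hc : Fintype.card K = 4 ∨ 8 ≤ Fintype.card K) (hn : IsNF a n)
    (q1 : n.q1 = 0) (q2 : n.q2 = 0) (q3 : n.q3 = 0) (m1 : n.m1 = 0) (m2 : n.m2 = 0)
    (m3 : n.m3 ≠ 0) (hk : n.k = 0) (han : n.Aniso) : Curve a e3 := by
  by_cases hbad : n.m3 ^ 2 * n.h1 = n.l1 ^ 2 ∧ n.h2 = 0 ∧ n.m3 ^ 2 * n.h3 = n.l2 ^ 2
  · obtain ⟨b1, b2, b3⟩ := hbad
    obtain ⟨hA1, hA2⟩ := p.Aff p.T1 p.T2 K a n 0 0 (n.l1 / n.m3) (n.l2 / n.m3) 0 hn q1 q2 q3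
    apply hA2
    have e1 : n.h1 = (n.l1 / n.m3) ^ 2 := by field_simp; linear_combination b1
    have e3' : n.h3 = (n.l2 / n.m3) ^ 2 := by field_simp; linear_combination b3
    have hh1 : (n.aff 0 0 (n.l1 / n.m3) (n.l2 / n.m3) 0).h1 = 0 := by
      simp only [NF.aff, m1]; rw [e1]; linear_combination (n.l1 / n.m3) ^ 2 * h2
    have hh2 : (n.aff 0 0 (n.l1 / n.m3) (n.l2 / n.m3) 0).h2 = 0 := by
      simp only [NF.aff, m1, m2]; rw [b2]
      linear_combination (n.l1 / n.m3) * (n.l2 / n.m3) * h2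
    have hh3 : (n.aff 0 0 (n.l1 / n.m3) (n.l2 / n.m3) 0).h3 = 0 := by
      simp only [NF.aff, m2]; rw [e3']; linear_combination (n.l2 / n.m3) ^ 2 * h2
    have hl1 : (n.aff 0 0 (n.l1 / n.m3) (n.l2 / n.m3) 0).l1 = 0 := by
      simp only [NF.aff, m1, m2]
      have : n.l1 / n.m3 * n.m3 = n.l1 := by field_simp
      linear_combination this + n.l1 * h2
    have hl2 : (n.aff 0 0 (n.l1 / n.m3) (n.l2 / n.m3) 0).l2 = 0 := by
      simp only [NF.aff, m1, m2]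
      have : n.l2 / n.m3 * n.m3 = n.l2 := by field_simp
      linear_combination this + n.l2 * h2
    have hkk : (n.aff 0 0 (n.l1 / n.m3) (n.l2 / n.m3) 0).k = 0 := by
      simp only [NF.aff, m1, m2, hk]; ring
    have hm1 : (n.aff 0 0 (n.l1 / n.m3) (n.l2 / n.m3) 0).m1 = 0 := by
      simp only [NF.aff, m1]; rw [h2]; ring
    have hm2 : (n.aff 0 0 (n.l1 / n.m3) (n.l2 / n.m3) 0).m2 = 0 := by
      simp only [NF.aff, m2]; rw [h2]; ring
    have hm3 : (n.aff 0 0 (n.l1 / n.m3) (n.l2 / n.m3) 0).m3 ≠ 0 := by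
      simp only [NF.aff, m1, m2]
      intro h; apply m3; linear_combination h
    have han' : (n.aff 0 0 (n.l1 / n.m3) (n.l2 / n.m3) 0).Aniso := han
    rcases hc with hc | hc
    · exact p.Even3 p.F p.Aff p.T1 p.T2 p.Even1 p.U p.V K _ _ h2 hc hA1 rfl rfl rfl hm1 hm2 hm3
        hh1 hh2 hh3 hl1 hl2 hkk han'
    · exact p.Even2 p.E p.Aff p.T1 p.T2 p.Even1 p.U p.V K _ _ h2 hc hA1 rfl rfl rfl hm1 hm2 hm3
        hh1 hh2 hh3 hl1 hl2 hkk han'
  · exact p.Even1 p.U p.V K a n h2 hn q1 q2 q3 m1 m2 m3 hk han hbad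

theorem even_case (p : Pieces) (a : Ten K) (n : NF K) (h2 : (2 : K) = 0) (hn : IsNF a n)
    (q1 : n.q1 = 0) (q2 : n.q2 = 0) (q3 : n.q3 = 0) (han : n.Aniso) : Curve a e3 := by
  by_cases hm : n.m1 = 0 ∧ n.m2 = 0 ∧ n.m3 ≠ 0
  · obtain ⟨m1, m2, m3⟩ := hm
    obtain ⟨⟨N, hN0⟩, hN⟩ := card_even h2
    simp only [PNat.mk_coe] at hN
    by_cases hN1 : N = 1
    · subst hN1
      exact p.Two p.Aff p.T1 p.T2 p.Even1 p.U p.V K a n (by simpa using hN) hn q1 q2 q3 m1 m2 m3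
        han
    · have hc : Fintype.card K = 4 ∨ 8 ≤ Fintype.card K := by
        rw [hN]
        rcases Nat.lt_or_ge N 3 with h | h
        · left
          have : N = 2 := by omega
          rw [this]; norm_num
        · right
          calc 8 = 2 ^ 3 := by norm_num
            _ ≤ 2 ^ N := Nat.pow_le_pow_right (by norm_num) h
      have hc4 : 4 ≤ Fintype.card K := by omega
      have hchar : ringChar K = 2 := CharP.ringChar_of_prime_eq_zero Nat.prime_two (by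
        exact_mod_cast h2)
      obtain ⟨X, Y, W, hW⟩ := p.D K hchar hc4 (n.a / n.m3 ^ 2) (n.b / n.m3 ^ 2) (n.c / n.m3 ^ 2)
        (n.d / n.m3 ^ 2) (n.h1 / n.m3 ^ 2) (n.h2 / n.m3 ^ 2) (n.h3 / n.m3 ^ 2) (n.l1 / n.m3 ^ 2)
        (n.l2 / n.m3 ^ 2) (n.k / n.m3 ^ 2) (by
          intro X Y h
          apply han X Y
          field_simp at h
          linear_combination h)
      obtain ⟨hA1, hA2⟩ := p.Aff p.T1 p.T2 K a n X Y 0 0 (n.m3 * W) hn q1 q2 q3
      apply hA2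
      refine even_k0 p _ _ h2 hc hA1 rfl rfl rfl ?_ ?_ ?_ ?_ han
      · simp only [NF.aff, m1]; ring
      · simp only [NF.aff, m2]; ring
      · simp only [NF.aff, m1, m2]
        intro h; apply m3; linear_combination h - n.m3 * W * h2
      · simp only [NF.aff, m1, m2]
        field_simp at hW
        linear_combination hW + (n.a * X ^ 3 + n.b * (X ^ 2 * Y) + n.c * (X * Y ^ 2) +
          n.d * Y ^ 3 + n.h1 * X ^ 2 + n.h2 * (X * Y) + n.h3 * Y ^ 2 + n.l1 * X + n.l2 * Y +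
          n.k) * h2
  · exact p.Even0 p.S K a n h2 hn q1 q2 q3 hm

theorem main_curve (p : Pieces) (a : Ten K) (hs : Smooth a) (x : Fin 4 → K) (hx : x ≠ 0)
    (hF : cub a x = 0) : Curve a x := by
  obtain ⟨g, hg, hgx, n, hn⟩ := p.R K a hs x hx hF
  suffices h : Curve (tr a g) e3 by
    have := p.T2 K a g e3 hg h
    rwa [hgx] at this
  have hs' := p.T3 K a g hg hs
  rcases p.L K (tr a g) n hn with h | ⟨⟨q1, q2, q3⟩, han⟩ | ⟨h1, h3⟩
  · exact h
  · by_cases h2 : (2 : K) = 0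
    · exact even_case p _ n h2 hn q1 q2 q3 han
    · obtain ⟨a', n', w, hn', r1, r2, r3, s1, s2, s3, han', hk, himp⟩ :=
        p.Odd1 p.A p.C p.Aff p.T1 p.T2 K (tr a g) n h2 hn q1 q2 q3 han
      exact himp (p.Odd2 p.S p.U p.V p.Z p.B K a' n' w h2 hn' r1 r2 r3 s1 s2 s3 han' hk)
  · exact p.CA p.U K (tr a g) n hn hs' h1 h3

end

end Pool.Agent.H574R3.CS
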