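import Pool.Agent.H574R3.CS.Stmts

set_option autoImplicit false

namespace Pool.Agent.H574R3.CS

open Polynomial

section
variable {K : Type} [Field K]

/-- evaluation of polynomials at `0` as an algebra hom -/
noncomputable abbrev ev0 : K[X] →ₐ[K] K := Polynomial.aeval (0 : K)

theorem cub_C (a : Ten K) (v : Fin 4 → K) : cub a (fun i => (C (v i) : K[X])) = C (cub a v) := by
  have := map_cub a (Algebra.ofId K K[X]) v
  simpa [Algebra.ofId_apply] using this.symm

theorem D_C (a : Ten K) (u v : Fin 4 → K) :
    D a (fun i => (C (u i) : K[X])) (fun i => C (v i)) = C (D a u v) := by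
  have := map_D a (Algebra.ofId K K[X]) u v
  simpa [Algebra.ofId_apply] using this.symm

theorem eval_cub (a : Ten K) (r : Fin 4 → K[X]) (t : K) :
    (cub a r).eval t = cub a (fun i => (r i).eval t) := by
  have := map_cub a (Polynomial.aeval t : K[X] →ₐ[K] K) r
  simpa [Polynomial.coe_aeval_eq_eval] using this

theorem eval_D (a : Ten K) (r s : Fin 4 → K[X]) (t : K) :
    (D a r s).eval t = D a (fun i => (r i).eval t) (fun i => (s i).eval t) := by
  have := map_D a (Polynomial.aeval t : K[X] →ₐ[K] K) r s
  simpa [Polynomial.coe_aeval_eq_eval] using this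

/-- a curve hitting `x` at the `K`-parameter `0` -/
theorem curve_of_zero (a : Ten K) (x : Fin 4 → K) (P : Fin 4 → K[X]) (hP : cub a P = 0)
    (c : K) (hc : c ≠ 0) (h0 : ∀ i, (P i).eval 0 = c * x i)
    (hn : ∃ i j, C (x i) * P j ≠ C (x j) * P i) : Curve a x := by
  refine ⟨P, hP, ⟨0, algebraMap K _ c, ?_, ?_⟩, hn⟩
  · exact (_root_.map_ne_zero _).2 hc
  · intro i
    rw [← map_mul, ← h0 i]
    have : (0 : AlgebraicClosure K) = algebraMap K (AlgebraicClosure K) 0 := by simp
    rw [this, Polynomial.aeval_algebraMap_apply, Polynomial.coe_aeval_eq_eval]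

/-- nonproportionality from a linear functional -/
theorem nonprop (x : Fin 4 → K) (hx : x ≠ 0) (P : Fin 4 → K[X]) (f : (Fin 4 → K) →ₗ[K] K)
    (hfx : f x = 0) (hP : ∑ i, C (f (Pi.single i 1)) * P i ≠ 0) :
    ∃ i j, C (x i) * P j ≠ C (x j) * P i := by
  by_contra hcon
  push Not at hcon
  obtain ⟨i, hi⟩ := Function.ne_iff.1 hx
  apply hP
  have h1 : C (x i) * ∑ j, C (f (Pi.single j 1)) * P j = 0 := by
    have h2 : ∀ j, C (x i) * (C (f (Pi.single j 1)) * P j) =
        C (x j * f (Pi.single j 1)) * P i := by
      intro j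
      rw [C_mul]
      linear_combination (C (f (Pi.single j 1))) * hcon i j
    rw [Finset.mul_sum, Finset.sum_congr rfl fun j _ => h2 j, ← Finset.sum_mul, ← map_sum]
    have h3 : ∑ j, x j * f (Pi.single j 1) = f x := by
      conv_rhs => rw [← Finset.univ_sum_single x]
      rw [map_sum]
      refine Finset.sum_congr rfl fun j _ => ?_
      have : (Pi.single j (x j) : Fin 4 → K) = x j • Pi.single j 1 := by
        rw [← Pi.single_smul, smul_eq_mul, mul_one]
      rw [this, map_smul, smul_eq_mul]
    rw [h3, hfx, C_0, zero_mul]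
  rcases mul_eq_zero.1 h1 with h | h
  · exact absurd (C_eq_zero.1 h) hi
  · exact h

theorem sum_fun (f : (Fin 4 → K) →ₗ[K] K) (v : Fin 4 → K) :
    ∑ i, f (Pi.single i 1) * v i = f v := by
  conv_rhs => rw [← Finset.univ_sum_single v]
  rw [map_sum]
  refine Finset.sum_congr rfl fun j _ => ?_
  have : (Pi.single j (v j) : Fin 4 → K) = v j • Pi.single j 1 := by
    rw [← Pi.single_smul, smul_eq_mul, mul_one]
  rw [this, map_smul, smul_eq_mul, mul_comm]

theorem sum_fun_C (f : (Fin 4 → K) →ₗ[K] K) (v : Fin 4 → K) :
    ∑ i, C (f (Pi.single i 1)) * (C (v i) : K[X]) = C (f v) := by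
  rw [← sum_fun f v, map_sum]
  simp only [C_mul]

/-- `D a y ·` as a linear functional -/
noncomputable def Dlin (a : Ten K) (y : Fin 4 → K) : (Fin 4 → K) →ₗ[K] K where
  toFun := D a y
  map_add' u v := by
    have := D_comb a y u v 1 1
    simpa [Pi.add_def] using this
  map_smul' c u := by
    have := D_comb a y u 0 c 0
    simpa [Pi.smul_def] using this

theorem taskS : TaskS := by
  intro K _ a x y hx hy hD hind
  have hx0 : x ≠ 0 := by simpa using hind.ne_zero 0
  have hpair := LinearIndependent.pair_iff.1 hind
  by_cases h0 : D a x y = 0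
  · -- the line
    have hyx : y ∉ Submodule.span K {x} := by
      rw [Submodule.mem_span_singleton]
      rintro ⟨c, hc⟩
      have := hpair c (-1) (by rw [hc]; simp)
      simpa using this.2
    obtain ⟨f, hf1, hf2⟩ := Submodule.exists_le_ker_of_notMem hyx
    have hfx : f x = 0 := hf2 (Submodule.mem_span_singleton_self x)
    refine curve_of_zero a x (fun i => 1 * C (x i) + X * C (y i)) ?_ 1 one_ne_zero ?_ ?_
    · rw [cub_comb a (fun i => C (x i)) (fun i => C (y i)) 1 X, cub_C, cub_C, D_C, D_C, hx, hy,
        hD, h0]
      simp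
    · intro i; simp
    · apply nonprop x hx0 _ f hfx
      have : ∑ i, C (f (Pi.single i 1)) * ((1 : K[X]) * C (x i) + X * C (y i)) =
          C (f x) + X * C (f y) := by
        rw [← sum_fun_C f x, ← sum_fun_C f y, Finset.mul_sum, ← Finset.sum_add_distrib]
        refine Finset.sum_congr rfl fun i _ => ?_
        ring
      rw [this, hfx, C_0, zero_add]
      exact mul_ne_zero X_ne_zero (by rwa [Ne, C_eq_zero])
  · -- a singular plane section
    have hex : ∃ e, D a y e = 0 ∧ e ∉ Submodule.span K ({x, y} : Set (Fin 4 → K)) := by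
      by_contra hcon
      push Not at hcon
      have hle : (Dlin a y).ker ≤ Submodule.span K ({x, y} : Set (Fin 4 → K)) := by
        intro e he
        exact hcon e he
      have h1 := LinearMap.finrank_range_add_finrank_ker (Dlin a y)
      have h2 : Module.finrank K (Dlin a y).range ≤ 1 := by
        refine (Submodule.finrank_le _).trans ?_
        simp
      have h3 := Submodule.finrank_mono hle
      have h4 : Module.finrank K (Submodule.span K ({x, y} : Set (Fin 4 → K))) ≤ 2 := by
        classical
        have := finrank_span_finset_le_card (R := K) ({x, y} : Finset (Fin 4 → K))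
        refine le_trans ?_ (this.trans Finset.card_le_two)
        rw [Finset.coe_insert, Finset.coe_singleton]
        exact le_rfl
      rw [Module.finrank_fin_fun] at h1
      omega
    obtain ⟨e, hDe, he⟩ := hex
    obtain ⟨f, hf1, hf2⟩ := Submodule.exists_le_ker_of_notMem he
    have hfx : f x = 0 := hf2 (Submodule.subset_span (by simp))
    have hfy : f y = 0 := hf2 (Submodule.subset_span (by simp))
    set b : Fin 4 → K[X] := fun i => 1 * C (x i) + X * C (e i) with hb
    have hb0 : ∀ i, (b i).eval 0 = x i := by intro i; simp [hb]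
    have hDyb : D a (fun i => C (y i)) b = 0 := by
      rw [hb, D_comb, D_C, D_C, hD, hDe]; simp
    have hDb0 : (D a b (fun i => C (y i))).eval 0 = D a x y := by
      rw [eval_D]; simp [hb0]
    have hcb0 : (cub a b).eval 0 = 0 := by
      rw [eval_cub]; simp [hb0, hx]
    refine curve_of_zero a x
      (fun i => (-cub a b) * C (y i) + (D a b (fun i => C (y i))) * b i) ?_ (D a x y) h0 ?_ ?_
    · rw [cub_comb a (fun i => C (y i)) b, cub_C, hy, hDyb]
      simp only [map_zero, mul_zero, zero_add, add_zero]
      ring
    · intro i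
      simp [hcb0, hDb0, hb0]
    · apply nonprop x hx0 _ f hfx
      have : ∑ i, C (f (Pi.single i 1)) *
          ((-cub a b) * C (y i) + (D a b (fun i => C (y i))) * b i) =
          (-cub a b) * C (f y) + (D a b (fun i => C (y i))) * (C (f x) + X * C (f e)) := by
        rw [← sum_fun_C f x, ← sum_fun_C f y, ← sum_fun_C f e]
        simp only [Finset.mul_sum, ← Finset.sum_add_distrib, hb]
        refine Finset.sum_congr rfl fun i _ => ?_
        ring
      rw [this, hfx, hfy, C_0, mul_zero, zero_add, zero_add]
      refine mul_ne_zero ?_ (mul_ne_zero X_ne_zero (by rwa [Ne, C_eq_zero]))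
      intro hz
      rw [hz] at hDb0
      simp at hDb0
      exact h0 hDb0.symm

theorem taskV : TaskV := by
  intro K _ a y e e' hy hDe hDe' hind hne
  have he' : e' ∉ Submodule.span K ({y, e} : Set (Fin 4 → K)) := by
    have := hind.notMem_span_image (s := {0, 1}) (x := 2) (by simp)
    simpa [Set.image_pair] using this
  obtain ⟨f, hf1, hf2⟩ := Submodule.exists_le_ker_of_notMem he'
  have hfy : f y = 0 := hf2 (Submodule.subset_span (by simp))
  have hfe : f e = 0 := hf2 (Submodule.subset_span (by simp))
  set b : Fin 4 → K[X] := fun i => 1 * C (e i) + X * C (e' i) with hb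
  have hb0 : ∀ i, (b i).eval 0 = e i := by intro i; simp [hb]
  have hDyb : D a (fun i => C (y i)) b = 0 := by
    rw [hb, D_comb, D_C, D_C, hDe, hDe']; simp
  have hDb0 : (D a b (fun i => C (y i))).eval 0 = D a e y := by
    rw [eval_D]; simp [hb0]
  have hcb0 : (cub a b).eval 0 = cub a e := by
    rw [eval_cub]; simp [hb0]
  set r : Fin 4 → K[X] :=
    (fun i => (-cub a b) * C (y i) + (D a b (fun i => C (y i))) * b i) with hr
  have hr0 : ∀ i, (r i).eval 0 = D a e y * e i - cub a e * y i := by
    intro i
    simp [hr, hcb0, hDb0, hb0]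
    ring
  refine ⟨r, ?_, hr0, ?_⟩
  · rw [hr, cub_comb a (fun i => C (y i)) b, cub_C, hy, hDyb]
    simp only [map_zero, mul_zero, zero_add, add_zero]
    ring
  · have hz0 : (fun i => (r i).eval 0) ≠ 0 := by
      intro h
      have h1 : ∀ i, D a e y * e i - cub a e * y i = 0 := by
        intro i; rw [← hr0 i]; exact congrFun h i
      have h2 : D a e y • e + (-cub a e) • y = 0 := by
        ext i
        simp only [Pi.add_apply, Pi.smul_apply, smul_eq_mul, Pi.zero_apply]
        linear_combination h1 i
      have h3 := Fintype.linearIndependent_iff.1 hind ![-cub a e, D a e y, 0] (by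
        rw [Fin.sum_univ_three]
        simp only [Matrix.cons_val_zero, Matrix.cons_val_one, Matrix.cons_val_two,
          Matrix.tail_cons, Matrix.head_cons, zero_smul, add_zero]
        rw [add_comm]
        simpa using h2)
      exact hne (by simpa using h3 1)
    apply nonprop _ hz0 _ f
    · have : (fun i => (r i).eval 0) = D a e y • e - cub a e • y := by
        ext i
        rw [hr0]
        simp
      rw [this, map_sub, map_smul, map_smul, hfe, hfy]
      simp
    · have : ∑ i, C (f (Pi.single i 1)) * r i =
          (-cub a b) * C (f y) + (D a b (fun i => C (y i))) * (C (f e) + X * C (f e')) := by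
        rw [← sum_fun_C f e, ← sum_fun_C f y, ← sum_fun_C f e']
        simp only [Finset.mul_sum, ← Finset.sum_add_distrib, hb, hr]
        refine Finset.sum_congr rfl fun i _ => ?_
        ring
      rw [this, hfe, hfy, C_0, mul_zero, zero_add, zero_add]
      refine mul_ne_zero ?_ (mul_ne_zero X_ne_zero (by rwa [Ne, C_eq_zero]))
      intro hz
      rw [hz] at hDb0
      simp at hDb0
      exact hne hDb0.symm

end

end Pool.Agent.H574R3.CS
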