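import Pool.Agent.H574R3.CS.Stmts

/-! Tasks T1, T2, T3 (helper383): behaviour under linear substitutions. -/

set_option autoImplicit false

namespace Pool.Agent.H574R3.CS

open Polynomial

section
variable {K : Type} [Field K]

/-- trilinear form of the tensor -/
noncomputable def triT (a : Ten K) {A : Type} [CommRing A] [Algebra K A] (u v w : Fin 4 → A) : A :=
  ∑ i, ∑ j, ∑ k, algebraMap K A (a i j k) * (u i * v j * w k)

theorem cub_eq_triT (a : Ten K) {A : Type} [CommRing A] [Algebra K A] (v : Fin 4 → A) :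
    cub a v = triT a v v v := rfl

theorem D_eq_triT (a : Ten K) {A : Type} [CommRing A] [Algebra K A] (u v : Fin 4 → A) :
    D a u v = triT a v u u + triT a u v u + triT a u u v := by
  simp only [D, triT, ← Finset.sum_add_distrib, mul_add]

theorem sum3 {A : Type} [AddCommMonoid A] (f : Fin 4 → Fin 4 → Fin 4 → A) :
    ∑ i, ∑ j, ∑ k, f i j k = ∑ x : Fin 4 × Fin 4 × Fin 4, f x.1 x.2.1 x.2.2 := by
  simp only [Fintype.sum_prod_type]

theorem triT_tr (a : Ten K) (g : Matrix (Fin 4) (Fin 4) K) {A : Type} [CommRing A] [Algebra K A]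
    (u v w : Fin 4 → A) :
    triT (tr a g) u v w = triT a (mulV g u) (mulV g v) (mulV g w) := by
  have h1 : triT (tr a g) u v w = ∑ x : Fin 4 × Fin 4 × Fin 4, ∑ y : Fin 4 × Fin 4 × Fin 4,
      algebraMap K A (a y.1 y.2.1 y.2.2) * ((algebraMap K A (g y.1 x.1) * u x.1) *
        (algebraMap K A (g y.2.1 x.2.1) * v x.2.1) *
        (algebraMap K A (g y.2.2 x.2.2) * w x.2.2)) := by
    unfold triT tr
    rw [sum3]
    refine Finset.sum_congr rfl fun x _ => ?_
    rw [sum3, map_sum, Finset.sum_mul]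
    refine Finset.sum_congr rfl fun y _ => ?_
    rw [map_mul, map_mul, map_mul]
    ring
  have h2 : triT a (mulV g u) (mulV g v) (mulV g w) = ∑ y : Fin 4 × Fin 4 × Fin 4,
      ∑ x : Fin 4 × Fin 4 × Fin 4,
      algebraMap K A (a y.1 y.2.1 y.2.2) * ((algebraMap K A (g y.1 x.1) * u x.1) *
        (algebraMap K A (g y.2.1 x.2.1) * v x.2.1) *
        (algebraMap K A (g y.2.2 x.2.2) * w x.2.2)) := by
    unfold triT mulV
    rw [sum3]
    refine Finset.sum_congr rfl fun y _ => ?_
    rw [← Finset.mul_sum]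
    congr 1
    rw [← sum3 (fun p q r => (algebraMap K A (g y.1 p) * u p) *
        (algebraMap K A (g y.2.1 q) * v q) * (algebraMap K A (g y.2.2 r) * w r))]
    simp only [← Finset.mul_sum, ← Finset.sum_mul]
  rw [h1, h2, Finset.sum_comm]

theorem taskT1 : TaskT1 := by
  intro K _ a g A _ _ u v
  refine ⟨?_, ?_⟩
  · rw [cub_eq_triT, cub_eq_triT, triT_tr]
  · rw [D_eq_triT, D_eq_triT, triT_tr, triT_tr, triT_tr]

theorem mulV_mulV (h g : Matrix (Fin 4) (Fin 4) K) {A : Type} [CommRing A] [Algebra K A]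
    (u : Fin 4 → A) : mulV h (mulV g u) = mulV (h * g) u := by
  funext i
  simp only [mulV, Matrix.mul_apply, map_sum, map_mul, Finset.mul_sum, Finset.sum_mul]
  rw [Finset.sum_comm]
  exact Finset.sum_congr rfl fun _ _ => Finset.sum_congr rfl fun _ _ => by ring

theorem mulV_one {A : Type} [CommRing A] [Algebra K A] (u : Fin 4 → A) :
    mulV (1 : Matrix (Fin 4) (Fin 4) K) u = u := by
  funext i
  simp only [mulV, Matrix.one_apply]
  rw [Finset.sum_eq_single i]
  · simp
  · intro b _ hb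
    rw [if_neg (Ne.symm hb), map_zero, zero_mul]
  · intro h; exact absurd (Finset.mem_univ i) h

theorem mulV_zero (g : Matrix (Fin 4) (Fin 4) K) {A : Type} [CommRing A] [Algebra K A] :
    mulV g (0 : Fin 4 → A) = 0 := by
  funext i
  simp [mulV]

theorem mulV_inv_left {g : Matrix (Fin 4) (Fin 4) K} (hg : IsUnit g.det) {A : Type} [CommRing A]
    [Algebra K A] (u : Fin 4 → A) : mulV g⁻¹ (mulV g u) = u := by
  rw [mulV_mulV, Matrix.nonsing_inv_mul _ hg, mulV_one]

theorem mulV_inv_right {g : Matrix (Fin 4) (Fin 4) K} (hg : IsUnit g.det) {A : Type} [CommRing A]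
    [Algebra K A] (u : Fin 4 → A) : mulV g (mulV g⁻¹ u) = u := by
  rw [mulV_mulV, Matrix.mul_nonsing_inv _ hg, mulV_one]

/-- proportionality is preserved by matrices -/
theorem prop_mulV (h : Matrix (Fin 4) (Fin 4) K) (u : Fin 4 → K) (Q : Fin 4 → K[X])
    (H : ∀ i j, C (u i) * Q j = C (u j) * Q i) (i j : Fin 4) :
    C (mulV h u i) * mulV h Q j = C (mulV h u j) * mulV h Q i := by
  have e : ∀ i j : Fin 4, C (mulV h u i) * mulV h Q j =
      ∑ p, ∑ q, C (h i p) * C (h j q) * (C (u p) * Q q) := by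
    intro i j
    simp only [mulV, Algebra.algebraMap_self, RingHom.id_apply, map_sum, map_mul,
      Finset.sum_mul_sum]
    refine Finset.sum_congr rfl fun p _ => Finset.sum_congr rfl fun q _ => ?_
    rw [show (algebraMap K K[X]) (h j q) = C (h j q) from rfl]
    ring
  rw [e i j, e j i, Finset.sum_comm]
  refine Finset.sum_congr rfl fun p _ => Finset.sum_congr rfl fun q _ => ?_
  rw [H q p]
  ring

theorem taskT2 : TaskT2 := by
  intro K _ a g x hg hC
  obtain ⟨P, hP, ⟨t, c, hc, ht⟩, i, j, hij⟩ := hC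
  refine ⟨mulV g P, ?_, ⟨t, c, hc, ?_⟩, ?_⟩
  · rw [← (taskT1 K a g K[X] P P).1, hP]
  · intro i
    simp only [mulV, map_sum, map_mul, Finset.mul_sum, aeval_algebraMap_apply]
    refine Finset.sum_congr rfl fun p _ => ?_
    rw [ht p]
    simp only [Algebra.algebraMap_self, RingHom.id_apply, Polynomial.algebraMap_eq, aeval_C]
    ring
  · by_contra hcon
    push Not at hcon
    apply hij
    have := prop_mulV g⁻¹ (mulV g x) (mulV g P) hcon i j
    rwa [mulV_inv_left hg, mulV_inv_left hg] at this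

theorem taskT3 : TaskT3 := by
  intro K _ a g hg hS v hv h0
  have hv' : mulV g v ≠ 0 := by
    intro h
    apply hv
    rw [← mulV_inv_left hg v, h, mulV_zero]
  obtain ⟨w, hw⟩ := hS (mulV g v) hv' (by rw [← (taskT1 K a g _ v v).1]; exact h0)
  refine ⟨mulV g⁻¹ w, ?_⟩
  rw [(taskT1 K a g _ v _).2, mulV_inv_right hg]
  exact hw

end

end Pool.Agent.H574R3.CS
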