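import Pool.Agent.H574R3.CS.Stmts

set_option autoImplicit false

namespace Pool.Agent.H574R3.CS

open Polynomial

namespace TAffAux

variable {K : Type} [Field K]

lemma mulV_affM (X0 Y0 u v w : K) {A : Type} [CommRing A] [Algebra K A] (z : Fin 4 → A) :
    mulV (affM X0 Y0 u v w) z 0 = z 0 + algebraMap K A X0 * z 2 ∧
    mulV (affM X0 Y0 u v w) z 1 = z 1 + algebraMap K A Y0 * z 2 ∧
    mulV (affM X0 Y0 u v w) z 2 = z 2 ∧
    mulV (affM X0 Y0 u v w) z 3 =
      algebraMap K A u * z 0 + algebraMap K A v * z 1 + algebraMap K A w * z 2 + z 3 := by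
  refine ⟨?_, ?_, ?_, ?_⟩ <;>
  simp [mulV, affM, Fin.sum_univ_four]

lemma mulV_affM_e3 (X0 Y0 u v w : K) : mulV (affM X0 Y0 u v w) (e3 : Fin 4 → K) = e3 := by
  funext i
  fin_cases i <;> simp [mulV, affM, Fin.sum_univ_four, e3]

lemma det_affM (X0 Y0 u v w : K) : (affM X0 Y0 u v w).det = 1 := by
  simp [affM, Matrix.det_succ_row_zero, Fin.sum_univ_succ, Fin.succAbove]

end TAffAux

open TAffAux in
theorem taskAff : TaskAff := by
  intro T1 T2 K _ a n X0 Y0 u v w hN hq1 hq2 hq3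
  refine ⟨⟨?_, ?_⟩, ?_⟩
  · intro A _ _ z
    rw [(T1 K a _ A z z).1, hN.1]
    obtain ⟨h0, h1, h2, h3⟩ := mulV_affM X0 Y0 u v w z
    rw [h0, h1, h2, h3]
    simp only [NF.F, NF.aff, hq1, hq2, hq3, map_add, map_mul, map_pow, map_zero, map_ofNat]
    ring
  · intro A _ _ z z'
    rw [(T1 K a _ A z z').2, hN.2]
    obtain ⟨h0, h1, h2, h3⟩ := mulV_affM X0 Y0 u v w z
    obtain ⟨h0', h1', h2', h3'⟩ := mulV_affM X0 Y0 u v w z'
    rw [h0, h1, h2, h3, h0', h1', h2', h3']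
    simp only [NF.DF, NF.aff, hq1, hq2, hq3, map_add, map_mul, map_pow, map_zero, map_ofNat]
    ring
  · intro h
    have := T2 K a (affM X0 Y0 u v w) e3 (by rw [det_affM]; exact isUnit_one) h
    rwa [mulV_affM_e3] at this

end Pool.Agent.H574R3.CS
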