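import Pool.Agent.H574R3.CS.Stmts

set_option autoImplicit false

namespace Pool.Agent.H574R3.CS.TCA

open Polynomial Pool.Agent.H574R3.CS

section ident
variable {A : Type} [CommRing A]

/-- residual quadratic form -/
def Dk (q1 q2 q3 m1 m2 m3 h1 h2 h3 l1 l2 k p0 p1 κ X Y Z : A) : A :=
  (κ * Z - (p0 * X + p1 * Y)) ^ 2 + κ * (q1 * X ^ 2 + q2 * (X * Y) + q3 * Y ^ 2) +
    (κ * Z - (p0 * X + p1 * Y)) * (m1 * X + m2 * Y + m3 * Z) +
    (h1 * X ^ 2 + h2 * (X * Y) + h3 * Y ^ 2) + Z * (l1 * X + l2 * Y) + k * Z ^ 2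

/-- coefficients of `H + κ Q` -/
def A1 (q1 m1 h1 p0 κ : A) : A := p0 ^ 2 - p0 * m1 + h1 + κ * q1
def A2 (q2 m1 m2 h2 p0 p1 κ : A) : A := 2 * p0 * p1 - p0 * m2 - p1 * m1 + h2 + κ * q2
def A3 (q3 m2 h3 p1 κ : A) : A := p1 ^ 2 - p1 * m2 + h3 + κ * q3

/-- the linear form multiplying `Z` -/
def Lk (m1 m2 m3 l1 l2 p0 p1 κ X Y : A) : A :=
  -2 * κ * (p0 * X + p1 * Y) + κ * (m1 * X + m2 * Y) - m3 * (p0 * X + p1 * Y) + l1 * X + l2 * Y

theorem Dk_eq (q1 q2 q3 m1 m2 m3 h1 h2 h3 l1 l2 k p0 p1 κ X Y Z : A) :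
    Dk q1 q2 q3 m1 m2 m3 h1 h2 h3 l1 l2 k p0 p1 κ X Y Z =
      A1 q1 m1 h1 p0 κ * X ^ 2 + A2 q2 m1 m2 h2 p0 p1 κ * (X * Y) + A3 q3 m2 h3 p1 κ * Y ^ 2 +
        Z * Lk m1 m2 m3 l1 l2 p0 p1 κ X Y + (κ ^ 2 + κ * m3 + k) * Z ^ 2 := by
  unfold Dk A1 A2 A3 Lk
  ring

theorem Lk_comb (m1 m2 m3 l1 l2 p0 p1 κ x1 y1 x2 y2 β γ : A) :
    Lk m1 m2 m3 l1 l2 p0 p1 κ (β * x1 + γ * x2) (β * y1 + γ * y2) =
      β * Lk m1 m2 m3 l1 l2 p0 p1 κ x1 y1 + γ * Lk m1 m2 m3 l1 l2 p0 p1 κ x2 y2 := by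
  unfold Lk
  ring

theorem quad_comb (a1 a2 a3 x1 y1 x2 y2 β γ : A) :
    a1 * (β * x1 + γ * x2) ^ 2 + a2 * ((β * x1 + γ * x2) * (β * y1 + γ * y2)) +
      a3 * (β * y1 + γ * y2) ^ 2 =
    β ^ 2 * (a1 * x1 ^ 2 + a2 * (x1 * y1) + a3 * y1 ^ 2) +
      γ ^ 2 * (a1 * x2 ^ 2 + a2 * (x2 * y2) + a3 * y2 ^ 2) +
      β * γ * (2 * a1 * x1 * x2 + a2 * (x1 * y2 + x2 * y1) + 2 * a3 * y1 * y2) := by
  ring

theorem param (B B1 B2 E t t0 : A) (h : B * t0 = 1 - B1) :
    (-(B2 * (t + t0) + E)) * ((t + t0) * (B * t + 1)) * B +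
      (B * t + 1) * ((-(B2 * (t + t0) + E)) * B1 + ((t + t0) * (B * t + 1)) * B2) +
      E * (B * t + 1) ^ 2 = 0 := by
  linear_combination (-(B * t + 1) * (B2 * (t + t0) + E)) * h

end ident

theorem F_fact {K : Type} [Field K] (n : NF K) {A : Type} [CommRing A] [Algebra K A]
    (p0 p1 : K) (κ X Y Z : A) (ha : n.a = n.q1 * p0) (hb : n.b = n.q2 * p0 + n.q1 * p1)
    (hc : n.c = n.q3 * p0 + n.q2 * p1) (hd : n.d = n.q3 * p1) :
    n.F X Y Z (κ * Z - (algebraMap K A p0 * X + algebraMap K A p1 * Y)) =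
      Z * Dk (algebraMap K A n.q1) (algebraMap K A n.q2) (algebraMap K A n.q3)
        (algebraMap K A n.m1) (algebraMap K A n.m2) (algebraMap K A n.m3)
        (algebraMap K A n.h1) (algebraMap K A n.h2) (algebraMap K A n.h3)
        (algebraMap K A n.l1) (algebraMap K A n.l2) (algebraMap K A n.k)
        (algebraMap K A p0) (algebraMap K A p1) κ X Y Z := by
  unfold NF.F Dk
  rw [ha, hb, hc, hd]
  simp only [map_add, map_mul]
  ring

end Pool.Agent.H574R3.CS.TCA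

namespace Pool.Agent.H574R3.CS

open Polynomial TCA

theorem taskCA : TaskCA := by
  intro TU K _ _ a n hnf hsm hQ hp
  obtain ⟨p0, p1, ha, hb, hc, hd⟩ := hp
  set Qf : K → K → K := fun X Y => n.q1 * X ^ 2 + n.q2 * (X * Y) + n.q3 * Y ^ 2 with hQf
  set Hf : K → K → K := fun X Y => (p0 ^ 2 - p0 * n.m1 + n.h1) * X ^ 2 +
    (2 * p0 * p1 - p0 * n.m2 - p1 * n.m1 + n.h2) * (X * Y) + (p1 ^ 2 - p1 * n.m2 + n.h3) * Y ^ 2
    with hHf
  have hQ0 : ∀ X Y : K, (X ≠ 0 ∨ Y ≠ 0) → Qf X Y ≠ 0 := by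
    intro X Y h h0
    obtain ⟨h1, h2⟩ := hQ X Y h0
    rcases h with h | h
    · exact h h1
    · exact h h2
  -- pigeonhole
  set pt : Option K → K × K := fun o => match o with
    | none => (0, 1)
    | some s => (1, s) with hpt
  obtain ⟨o1, o2, hne, heq⟩ := Fintype.exists_ne_map_eq_of_card_lt
    (fun o : Option K => -Hf (pt o).1 (pt o).2 / Qf (pt o).1 (pt o).2) (by simp)
  have hptne : ∀ o, (pt o).1 ≠ 0 ∨ (pt o).2 ≠ 0 := by
    intro o
    cases o with
    | none => right; exact one_ne_zero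
    | some s => left; exact one_ne_zero
  have hdet : (pt o1).1 * (pt o2).2 - (pt o2).1 * (pt o1).2 ≠ 0 := by
    cases o1 with
    | none =>
      cases o2 with
      | none => exact absurd rfl hne
      | some s => simp [hpt]
    | some s =>
      cases o2 with
      | none => simp [hpt]
      | some s' =>
        simp only [hpt, one_mul]
        intro h
        apply hne
        rw [sub_eq_zero] at h
        rw [h]
  set κ : K := -Hf (pt o1).1 (pt o1).2 / Qf (pt o1).1 (pt o1).2 with hκ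
  have f1 : Hf (pt o1).1 (pt o1).2 + κ * Qf (pt o1).1 (pt o1).2 = 0 := by
    rw [hκ, div_mul_cancel₀ _ (hQ0 _ _ (hptne o1))]; ring
  have f2 : Hf (pt o2).1 (pt o2).2 + κ * Qf (pt o2).1 (pt o2).2 = 0 := by
    rw [show κ = -Hf (pt o2).1 (pt o2).2 / Qf (pt o2).1 (pt o2).2 from heq,
      div_mul_cancel₀ _ (hQ0 _ _ (hptne o2))]; ring
  generalize (pt o1).1 = x1 at f1 hdet
  generalize (pt o1).2 = y1 at f1 hdet
  generalize (pt o2).1 = x2 at f2 hdet
  generalize (pt o2).2 = y2 at f2 hdet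
  clear_value κ
  clear heq hptne hne hpt
  have f1' : A1 n.q1 n.m1 n.h1 p0 κ * x1 ^ 2 + A2 n.q2 n.m1 n.m2 n.h2 p0 p1 κ * (x1 * y1) +
      A3 n.q3 n.m2 n.h3 p1 κ * y1 ^ 2 = 0 := by
    rw [← f1, hHf, hQf]; unfold A1 A2 A3; ring
  have f2' : A1 n.q1 n.m1 n.h1 p0 κ * x2 ^ 2 + A2 n.q2 n.m1 n.m2 n.h2 p0 p1 κ * (x2 * y2) +
      A3 n.q3 n.m2 n.h3 p1 κ * y2 ^ 2 = 0 := by
    rw [← f2, hHf, hQf]; unfold A1 A2 A3; ring
  set a1 := A1 n.q1 n.m1 n.h1 p0 κ with ha1
  set a2 := A2 n.q2 n.m1 n.m2 n.h2 p0 p1 κ with ha2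
  set a3 := A3 n.q3 n.m2 n.h3 p1 κ with ha3
  set B : K := 2 * a1 * x1 * x2 + a2 * (x1 * y2 + x2 * y1) + 2 * a3 * y1 * y2 with hB
  by_cases hB0 : B = 0
  · -- singular point
    exfalso
    have hδ : (x1 * y2 - x2 * y1) ^ 2 ≠ 0 := pow_ne_zero _ hdet
    have z1 : a1 = 0 := by
      have : (x1 * y2 - x2 * y1) ^ 2 * a1 = 0 := by
        linear_combination y2 ^ 2 * f1' + y1 ^ 2 * f2' - y1 * y2 * hB0
      exact (mul_eq_zero.1 this).resolve_left hδ
    have z3 : a3 = 0 := by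
      have : (x1 * y2 - x2 * y1) ^ 2 * a3 = 0 := by
        linear_combination x2 ^ 2 * f1' + x1 ^ 2 * f2' - x1 * x2 * hB0
      exact (mul_eq_zero.1 this).resolve_left hδ
    have z2 : a2 = 0 := by
      have : (x1 * y2 - x2 * y1) ^ 2 * a2 = 0 := by
        linear_combination -2 * x2 * y2 * f1' - 2 * x1 * y1 * f2' + (x1 * y2 + x2 * y1) * hB0
      exact (mul_eq_zero.1 this).resolve_left hδ
    have hq3 : n.q3 ≠ 0 := by
      intro h
      have := (hQ 0 1 (by rw [h]; ring)).2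
      exact one_ne_zero this
    obtain ⟨θ, hθ⟩ := IsAlgClosed.exists_aeval_eq_zero (AlgebraicClosure K)
      (C n.q3 * X ^ 2 + C n.q2 * X + C n.q1) (by rw [degree_quadratic hq3]; decide)
    simp only [map_add, map_mul, aeval_C, aeval_X, map_pow] at hθ
    set φ := algebraMap K (AlgebraicClosure K) with hφ
    have w1 : φ p0 ^ 2 - φ p0 * φ n.m1 + φ n.h1 + φ κ * φ n.q1 = 0 := by
      have := congrArg φ z1
      rw [ha1, A1] at this
      simpa using this
    have w2 : 2 * φ p0 * φ p1 - φ p0 * φ n.m2 - φ p1 * φ n.m1 + φ n.h2 + φ κ * φ n.q2 = 0 := by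
      have := congrArg φ z2
      rw [ha2, A2] at this
      simpa only [map_add, map_sub, map_mul, map_zero, map_ofNat] using this
    have w3 : φ p1 ^ 2 - φ p1 * φ n.m2 + φ n.h3 + φ κ * φ n.q3 = 0 := by
      have := congrArg φ z3
      rw [ha3, A3] at this
      simpa using this
    obtain ⟨w, hw⟩ := hsm ![1, θ, 0, -(φ p0 + φ p1 * θ)] (by
      intro h
      have := congrFun h 0
      simp at this) (by
      rw [hnf.1]
      show n.F 1 θ 0 (-(φ p0 + φ p1 * θ)) = 0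
      unfold NF.F
      rw [ha, hb, hc, hd]
      simp only [map_add, map_mul, ← hφ]
      ring)
    apply hw
    rw [hnf.2]
    show n.DF 1 θ 0 (-(φ p0 + φ p1 * θ)) (w 0) (w 1) (w 2) (w 3) = 0
    unfold NF.DF
    rw [ha, hb, hc, hd]
    simp only [map_add, map_mul, ← hφ]
    linear_combination (φ p0 * w 0 + φ p1 * w 1 + w 3 - φ κ * w 2) * hθ + w 2 * w1 +
      w 2 * θ * w2 + w 2 * θ ^ 2 * w3
  · -- the conic
    set B1 : K := Lk n.m1 n.m2 n.m3 n.l1 n.l2 p0 p1 κ x1 y1 with hB1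
    set B2 : K := Lk n.m1 n.m2 n.m3 n.l1 n.l2 p0 p1 κ x2 y2 with hB2
    set E : K := κ ^ 2 + κ * n.m3 + n.k with hE
    set t0 : K := (1 - B1) / B with ht0
    have hBt : B * t0 = 1 - B1 := by rw [ht0]; field_simp
    set β : K[X] := -(C B2 * (X + C t0) + C E) with hβ
    set γ : K[X] := (X + C t0) * (C B * X + 1) with hγ
    set ζ : K[X] := C B * X + 1 with hζ
    set r0 : K[X] := β * C x1 + γ * C x2 with hr0
    set r1 : K[X] := β * C y1 + γ * C y2 with hr1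
    have hF : n.F r0 r1 ζ (C κ * ζ - (C p0 * r0 + C p1 * r1)) = 0 := by
      have h := F_fact n (A := K[X]) p0 p1 (C κ) r0 r1 ζ ha hb hc hd
      rw [show (algebraMap K K[X]) = C from rfl] at h
      rw [h, Dk_eq]
      have e1 : A1 (C n.q1) (C n.m1) (C n.h1) (C p0) (C κ) = (C a1 : K[X]) := by
        rw [ha1]; simp only [A1, map_add, map_sub, map_mul, map_pow]
      have e2 : A2 (C n.q2) (C n.m1) (C n.m2) (C n.h2) (C p0) (C p1) (C κ) = (C a2 : K[X]) := by
        rw [ha2]; simp only [A2, map_add, map_sub, map_mul, map_ofNat]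
      have e3 : A3 (C n.q3) (C n.m2) (C n.h3) (C p1) (C κ) = (C a3 : K[X]) := by
        rw [ha3]; simp only [A3, map_add, map_sub, map_mul, map_pow]
      have e4 : Lk (C n.m1) (C n.m2) (C n.m3) (C n.l1) (C n.l2) (C p0) (C p1) (C κ) (C x1) (C y1) =
          (C B1 : K[X]) := by
        rw [hB1]; simp only [Lk, map_add, map_sub, map_mul, map_neg, map_ofNat]
      have e5 : Lk (C n.m1) (C n.m2) (C n.m3) (C n.l1) (C n.l2) (C p0) (C p1) (C κ) (C x2) (C y2) =
          (C B2 : K[X]) := by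
        rw [hB2]; simp only [Lk, map_add, map_sub, map_mul, map_neg, map_ofNat]
      have e6 : (C κ ^ 2 + C κ * C n.m3 + C n.k : K[X]) = C E := by
        rw [hE]; simp only [map_add, map_mul, map_pow]
      have g1 : (C a1 * C x1 ^ 2 + C a2 * (C x1 * C y1) + C a3 * C y1 ^ 2 : K[X]) = 0 := by
        have := congrArg (C : K → K[X]) f1'
        simpa only [map_add, map_mul, map_pow, map_zero] using this
      have g2 : (C a1 * C x2 ^ 2 + C a2 * (C x2 * C y2) + C a3 * C y2 ^ 2 : K[X]) = 0 := by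
        have := congrArg (C : K → K[X]) f2'
        simpa only [map_add, map_mul, map_pow, map_zero] using this
      have g3 : (2 * C a1 * C x1 * C x2 + C a2 * (C x1 * C y2 + C x2 * C y1) +
          2 * C a3 * C y1 * C y2 : K[X]) = C B := by
        rw [hB]; simp only [map_add, map_mul, map_ofNat]
      have g4 : (C B * C t0 : K[X]) = 1 - C B1 := by
        rw [← map_mul, hBt, map_sub, map_one]
      rw [e1, e2, e3, e6, hr0, hr1, Lk_comb, e4, e5, quad_comb, g1, g2, g3]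
      have key := param (C B : K[X]) (C B1) (C B2) (C E) X (C t0) g4
      rw [← hβ, ← hζ, ← hγ] at key
      linear_combination ζ * key
    refine TU K a e3 ![r0, r1, ζ, C κ * ζ - (C p0 * r0 + C p1 * r1)] ?_ ?_ ?_ ?_
    · rw [hnf.1]
      show n.F (0 : K) 0 0 1 = 0
      unfold NF.F
      ring
    · rw [hnf.1]
      exact hF
    · rw [hnf.2]
      show n.DF (0 : K) 0 0 1 (r0.eval 0) (r1.eval 0) (ζ.eval 0) _ ≠ 0
      unfold NF.DF
      have : ζ.eval 0 = 1 := by rw [hζ]; simp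
      rw [this]
      ring_nf
      exact one_ne_zero
    · by_contra hcon
      push Not at hcon
      have hz : ζ.eval 0 = 1 := by rw [hζ]; simp
      have c0 := hcon 2 0
      have c1 := hcon 2 1
      simp only [Matrix.cons_val_zero, Matrix.cons_val_one, Matrix.cons_val] at c0 c1
      rw [hz, C_1, one_mul] at c0 c1
      have hdetC : (C (x1 * y2 - x2 * y1) : K[X]) ≠ 0 := by
        rw [Ne, C_eq_zero]; exact hdet
      have k1 : C (x1 * y2 - x2 * y1) * γ = C x1 * r1 - C y1 * r0 := by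
        rw [hr0, hr1, map_sub, map_mul, map_mul]; ring
      have k2 : C (x1 * y2 - x2 * y1) * γ = (C x1 * C (r1.eval 0) - C y1 * C (r0.eval 0)) * ζ := by
        rw [k1]
        conv_lhs => rw [c0, c1]
        ring
      have k3 : (x1 * y2 - x2 * y1) * γ.eval 0 = x1 * r1.eval 0 - y1 * r0.eval 0 := by
        have := congrArg (Polynomial.eval 0) k1
        simpa using this
      have k4 : γ.eval 0 = t0 := by rw [hγ]; simp [hz]
      have k5 : C (x1 * y2 - x2 * y1) * (X * ζ) = 0 := by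
        have : (C x1 * C (r1.eval 0) - C y1 * C (r0.eval 0) : K[X]) =
            C (x1 * y2 - x2 * y1) * C t0 := by
          rw [← map_mul, ← map_mul, ← map_mul, ← map_sub, ← k3, k4]
        rw [this] at k2
        have hγ' : γ = (X + C t0) * ζ := hγ
        rw [hγ'] at k2
        linear_combination k2
      have hζ0 : ζ ≠ 0 := by
        intro h
        rw [h] at hz
        simp at hz
      exact (mul_ne_zero hdetC (mul_ne_zero X_ne_zero hζ0)) k5

end Pool.Agent.H574R3.CS
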