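import Pool.Agent.H574R3.CS.Tasks

set_option autoImplicit false

/-!
`TaskD`: in characteristic two with at least four elements, `W ^ 2 + W` takes a common value with
every cubic in two variables with anisotropic leading form.
-/

namespace Pool.Agent.H574R3.CS.D853

open Pool.Agent.H574R3.CS

/-- the additive map `W ↦ W ^ 2 + W` -/
def phi (K : Type) [Field K] [CharP K 2] : K →+ K where
  toFun W := W ^ 2 + W
  map_zero' := by simp
  map_add' x y := by
    rw [CharTwo.add_sq]
    ring

theorem mem_range {K : Type} [Field K] [CharP K 2] (z : K) :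
    z ∈ (phi K).range ↔ ∃ W, W ^ 2 + W = z := Iff.rfl

theorem index_two (K : Type) [Field K] [Fintype K] [CharP K 2] : (phi K).range.index = 2 := by
  have h1 : Nat.card (phi K).ker * (phi K).ker.index = Nat.card K :=
    AddSubgroup.card_mul_index _
  rw [AddSubgroup.index_ker] at h1
  have h2 : Nat.card (phi K).range * (phi K).range.index = Nat.card K :=
    AddSubgroup.card_mul_index _
  have hker : Nat.card (phi K).ker = 2 := by
    have hset : ((phi K).ker : Set K) = {0, 1} := by
      ext W
      simp only [SetLike.mem_coe, AddMonoidHom.mem_ker, Set.mem_insert_iff, Set.mem_singleton_iff]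
      show W ^ 2 + W = 0 ↔ _
      constructor
      · intro h
        have h' : W * (W + 1) = 0 := by rw [← h]; ring
        rcases mul_eq_zero.mp h' with h0 | h0
        · exact Or.inl h0
        · right
          rw [CharTwo.add_eq_zero] at h0
          exact h0
      · rintro (rfl | rfl)
        · simp
        · rw [one_pow]
          exact CharTwo.add_self_eq_zero 1
    have hc : Nat.card ((phi K).ker : Set K) = 2 := by
      rw [hset, Nat.card_coe_set_eq]
      exact Set.ncard_pair zero_ne_one
    exact hc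
  rw [hker, ← h2, mul_comm 2 _] at h1
  have hpos : 0 < Nat.card (phi K).range := Nat.card_pos
  exact (Nat.eq_of_mul_eq_mul_left hpos h1).symm

theorem taskD : TaskD := by
  classical
  intro K _ _ hchar hcard a b c d h1 h2 h3 l1 l2 k haniso
  have : CharP K 2 := by
    rw [← hchar]
    exact ringChar.charP K
  have two0 : (2 : K) = 0 := CharTwo.two_eq_zero
  by_contra hno
  push Not at hno
  have hidx := index_two K
  have hnot : ∀ X Y : K, (a * X ^ 3 + b * X ^ 2 * Y + c * X * Y ^ 2 + d * Y ^ 3 +
      h1 * X ^ 2 + h2 * X * Y + h3 * Y ^ 2 + l1 * X + l2 * Y + k) ∉ (phi K).range := by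
    intro X Y hX
    obtain ⟨W, hW⟩ := (mem_range _).mp hX
    exact hno X Y W hW
  have hsum : ∀ X Y X' Y' : K, (a * X ^ 3 + b * X ^ 2 * Y + c * X * Y ^ 2 + d * Y ^ 3 +
      h1 * X ^ 2 + h2 * X * Y + h3 * Y ^ 2 + l1 * X + l2 * Y + k) +
      (a * X' ^ 3 + b * X' ^ 2 * Y' + c * X' * Y' ^ 2 + d * Y' ^ 3 +
      h1 * X' ^ 2 + h2 * X' * Y' + h3 * Y' ^ 2 + l1 * X' + l2 * Y' + k) ∈ (phi K).range := by
    intro X Y X' Y'
    rw [AddSubgroup.add_mem_iff_of_index_two hidx]
    exact iff_of_false (hnot X Y) (hnot X' Y')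
  have key : ∀ v1 v2 : K, ¬ (v1 = 0 ∧ v2 = 0) →
      a * v1 ^ 3 + b * v1 ^ 2 * v2 + c * v1 * v2 ^ 2 + d * v2 ^ 3 = 1 := by
    intro v1 v2 hv
    obtain ⟨e, he⟩ := FiniteField.isSquare_of_char_two (F := K) hchar
      (a * v1 ^ 3 + b * v1 ^ 2 * v2 + c * v1 * v2 ^ 2 + d * v2 ^ 3)
    have hmem : ∀ s : K, s * ((a * v1 ^ 3 + b * v1 ^ 2 * v2 + c * v1 * v2 ^ 2 + d * v2 ^ 3) + e)
        ∈ (phi K).range := by
      intro s
      have A1 := hsum ((s + 1) * v1) ((s + 1) * v2) (s * v1) (s * v2)
      have A2 := hsum v1 v2 0 0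
      have A3 : (s * e) ^ 2 + s * e ∈ (phi K).range := (mem_range _).mpr ⟨s * e, rfl⟩
      have A := (phi K).range.add_mem ((phi K).range.add_mem A1 A2) A3
      convert A using 1
      linear_combination
        (-(a * v1 ^ 3 + b * v1 ^ 2 * v2 + c * v1 * v2 ^ 2 + d * v2 ^ 3) *
          (s ^ 3 + 2 * s ^ 2 + s + 1) -
          (h1 * v1 ^ 2 + h2 * v1 * v2 + h3 * v2 ^ 2) * (s ^ 2 + s + 1) -
          (l1 * v1 + l2 * v2) * (s + 1) - 2 * k) * two0 + s ^ 2 * he
    have hz : (a * v1 ^ 3 + b * v1 ^ 2 * v2 + c * v1 * v2 ^ 2 + d * v2 ^ 3) + e = 0 := by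
      by_contra hne
      have htop : (phi K).range = ⊤ := by
        rw [eq_top_iff]
        intro z _
        have := hmem (z / ((a * v1 ^ 3 + b * v1 ^ 2 * v2 + c * v1 * v2 ^ 2 + d * v2 ^ 3) + e))
        rwa [div_mul_cancel₀ _ hne] at this
      rw [htop, AddSubgroup.index_top] at hidx
      norm_num at hidx
    rw [CharTwo.add_eq_zero] at hz
    rw [hz] at he
    have he' : e * (e - 1) = 0 := by linear_combination -he
    rcases mul_eq_zero.mp he' with h0 | h0
    · exfalso
      apply hv
      apply haniso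
      rw [hz, h0]
    · rw [hz]
      exact sub_eq_zero.mp h0
  have ha := key 1 0 (by simp)
  have hd := key 0 1 (by simp)
  have hroot : ∀ t : K, t ≠ 0 → t ^ 2 + c * t + b = 0 := by
    intro t ht
    have h := key 1 t (by simp)
    have h' : t * (t ^ 2 + c * t + b) = 0 := by
      linear_combination h - ha - t ^ 3 * hd
    exact (mul_eq_zero.mp h').resolve_left ht
  have h11 := hroot 1 one_ne_zero
  have hall : ∀ t : K, t ∈ ({0, 1, -1 - c} : Finset K) := by
    intro t
    simp only [Finset.mem_insert, Finset.mem_singleton]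
    by_cases h0 : t = 0
    · exact Or.inl h0
    · by_cases h1' : t = 1
      · exact Or.inr (Or.inl h1')
      · right; right
        have h := hroot t h0
        have h' : (t - 1) * (t + 1 + c) = 0 := by linear_combination h - h11
        have := (mul_eq_zero.mp h').resolve_left (sub_ne_zero.mpr h1')
        linear_combination this
  have hle : Fintype.card K ≤ ({0, 1, -1 - c} : Finset K).card := by
    rw [← Finset.card_univ]
    exact Finset.card_le_card fun t _ => hall t
  have hc3 : ({0, 1, -1 - c} : Finset K).card ≤ 3 := Finset.card_le_three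
  omega

end Pool.Agent.H574R3.CS.D853
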