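import Pool.Agent.H574R3.CS.Stmts

set_option autoImplicit false

namespace Pool.Agent.H574R3.CS.TTwo

open Polynomial Pool.Agent.H574R3.CS

variable {K : Type} [Field K]

theorem mkCurve {a : Ten K} {n : NF K} (h : IsNF a n) (X Y Z W : K[X])
    (hF : n.F X Y Z W = 0) (h0 : X.eval 0 = 0) (h1 : Y.eval 0 = 0) (h2 : Z.eval 0 = 0)
    (h3 : W.eval 0 = 1) (hZ : Z ≠ 0) : Curve a e3 := by
  refine ⟨![X, Y, Z, W], ?_, ⟨algebraMap K _ 0, 1, one_ne_zero, ?_⟩, 3, 2, ?_⟩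
  · rw [h.1]
    exact hF
  · intro i
    rw [aeval_algebraMap_apply_eq_algebraMap_eval, one_mul]
    congr 1
    fin_cases i
    · exact h0
    · exact h1
    · exact h2
    · exact h3
  · simpa [e3] using hZ

/-- the special surface -/
theorem fin1 {a : Ten K} {n : NF K} (h : IsNF a n) (two : (2 : K) = 0)
    (q1 : n.q1 = 0) (q2 : n.q2 = 0) (q3 : n.q3 = 0) (m1 : n.m1 = 0) (m2 : n.m2 = 0)
    (m3 : n.m3 = 1) (ha : n.a = 1) (hd : n.d = 1) (hbc : (n.b = 0 ∧ n.c = 1) ∨ (n.b = 1 ∧ n.c = 0))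
    (h1 : n.h1 = 0) (h2 : n.h2 = 0) (h3 : n.h3 = 0) (l1 : n.l1 = 0) (l2 : n.l2 = 0)
    (hk : n.k = 0) : Curve a e3 := by
  have t2 : (2 : K[X]) = 0 := by
    rw [← map_ofNat (C : K →+* K[X]) 2, two, C_0]
  rcases hbc with ⟨hb, hc⟩ | ⟨hb, hc⟩
  · refine mkCurve h (X ^ 4 + X ^ 5) (X ^ 2 + X ^ 5) (X ^ 6)
      ((1 + X) ^ 3 + X ^ 2 * (1 + X) ^ 2 + X ^ 4 * (1 + X) + X ^ 5) ?_ (by simp) (by simp) (by simp)
      (by simp) (pow_ne_zero _ X_ne_zero)
    simp only [NF.F, q1, q2, q3, m1, m2, m3, ha, hb, hc, hd, h1, h2, h3, l1, l2, hk, map_zero,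
      map_one, zero_mul, mul_zero, add_zero, zero_add, one_mul]
    linear_combination (1*X^6 + 3*X^7 + 9*X^8 + 17*X^9 + 19*X^10 + 21*X^11 + 22*X^12 + 17*X^13 +
      12*X^14 + 7*X^15 + 3*X^16 + 1*X^17) * t2
  · refine mkCurve h (X ^ 2 + X ^ 5) (X ^ 4 + X ^ 5) (X ^ 6)
      ((1 + X) ^ 3 + X ^ 2 * (1 + X) ^ 2 + X ^ 4 * (1 + X) + X ^ 5) ?_ (by simp) (by simp) (by simp)
      (by simp) (pow_ne_zero _ X_ne_zero)
    simp only [NF.F, q1, q2, q3, m1, m2, m3, ha, hb, hc, hd, h1, h2, h3, l1, l2, hk, map_zero,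
      map_one, zero_mul, mul_zero, add_zero, zero_add, one_mul]
    linear_combination (1*X^6 + 3*X^7 + 9*X^8 + 17*X^9 + 19*X^10 + 21*X^11 + 22*X^12 + 17*X^13 +
      12*X^14 + 7*X^15 + 3*X^16 + 1*X^17) * t2

/-- the other surface -/
theorem fin2 {a : Ten K} {n : NF K} (h : IsNF a n) (two : (2 : K) = 0)
    (q1 : n.q1 = 0) (q2 : n.q2 = 0) (q3 : n.q3 = 0) (m1 : n.m1 = 0) (m2 : n.m2 = 0)
    (m3 : n.m3 = 1) (ha : n.a = 1) (hd : n.d = 1) (hbc : (n.b = 0 ∧ n.c = 1) ∨ (n.b = 1 ∧ n.c = 0))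
    (h1 : n.h1 = 0) (h2 : n.h2 = 1) (h3 : n.h3 = 0) (l1 : n.l1 = 1) (l2 : n.l2 = 1)
    (hk : n.k = 1) : Curve a e3 := by
  have t2 : (2 : K[X]) = 0 := by
    rw [← map_ofNat (C : K →+* K[X]) 2, two, C_0]
  have hZ : ((X ^ 2 + X) ^ 3 : K[X]) ≠ 0 := by
    apply pow_ne_zero
    intro h0
    have := congrArg (fun p : K[X] => p.coeff 2) h0
    simp [coeff_X] at this
  rcases hbc with ⟨hb, hc⟩ | ⟨hb, hc⟩
  · refine mkCurve h ((X ^ 2 + X) * (X ^ 3 + 1)) ((X ^ 2 + X) * (X ^ 6 + X ^ 2 + X))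
      ((X ^ 2 + X) ^ 3) (X ^ 9 + X ^ 7 + X ^ 5 + X + 1) ?_ (by simp) (by simp) (by simp)
      (by simp) hZ
    simp only [NF.F, q1, q2, q3, m1, m2, m3, ha, hb, hc, hd, h1, h2, h3, l1, l2, hk, map_zero,
      map_one, zero_mul, mul_zero, add_zero, zero_add, one_mul]
    linear_combination (1*X^3 + 4*X^4 + 7*X^5 + 11*X^6 + 22*X^7 + 41*X^8 + 65*X^9 + 90*X^10 +
      115*X^11 + 144*X^12 + 164*X^13 + 150*X^14 + 109*X^15 + 74*X^16 + 56*X^17 + 42*X^18 +
      25*X^19 + 11*X^20 + 5*X^21 + 4*X^22 + 3*X^23 + 1*X^24) * t2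
  · refine mkCurve h ((X ^ 2 + X) * (X ^ 6 + X ^ 2 + X)) ((X ^ 2 + X) * (X ^ 3 + 1))
      ((X ^ 2 + X) ^ 3) (X ^ 9 + X ^ 7 + X ^ 5 + X + 1) ?_ (by simp) (by simp) (by simp)
      (by simp) hZ
    simp only [NF.F, q1, q2, q3, m1, m2, m3, ha, hb, hc, hd, h1, h2, h3, l1, l2, hk, map_zero,
      map_one, zero_mul, mul_zero, add_zero, zero_add, one_mul]
    linear_combination (1*X^3 + 4*X^4 + 7*X^5 + 11*X^6 + 22*X^7 + 41*X^8 + 65*X^9 + 90*X^10 +
      115*X^11 + 144*X^12 + 164*X^13 + 150*X^14 + 109*X^15 + 74*X^16 + 56*X^17 + 42*X^18 +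
      25*X^19 + 11*X^20 + 5*X^21 + 4*X^22 + 3*X^23 + 1*X^24) * t2

end Pool.Agent.H574R3.CS.TTwo

namespace Pool.Agent.H574R3.CS

open Polynomial TTwo

theorem taskTwo : TaskTwo := by
  intro Aff T1 T2 Ev1 U V K _ _ a n hcard hnf q1 q2 q3 m1 m2 m3 han
  have sq : ∀ x : K, x ^ 2 = x := by
    intro x
    have := FiniteField.pow_card x
    rwa [hcard] at this
  have e01 : ∀ x : K, x ≠ 0 → x = 1 := by
    intro x hx
    have h := sq x
    have : x * (x - 1) = 0 := by linear_combination h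
    rcases mul_eq_zero.1 this with h | h
    · exact absurd h hx
    · linear_combination h
  have two : (2 : K) = 0 := by
    have h := sq 2
    linear_combination h
  have hm3 : n.m3 = 1 := e01 _ m3
  have ha : n.a = 1 := by
    apply e01
    intro h
    have := (han 1 0 (by rw [h]; ring)).1
    exact one_ne_zero this
  have hd : n.d = 1 := by
    apply e01
    intro h
    have := (han 0 1 (by rw [h]; ring)).2
    exact one_ne_zero this
  have hbc1 : n.b + n.c = 1 := by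
    apply e01
    intro h
    have := (han 1 1 (by rw [ha, hd]; linear_combination h + two)).1
    exact one_ne_zero this
  have hbc : (n.b = 0 ∧ n.c = 1) ∨ (n.b = 1 ∧ n.c = 0) := by
    by_cases h : n.b = 0
    · left; exact ⟨h, by rw [h, zero_add] at hbc1; exact hbc1⟩
    · right
      have := e01 _ h
      exact ⟨this, by rw [this] at hbc1; linear_combination hbc1⟩
  by_cases hC : ∃ X0 Y0 : K, n.k + n.a * X0 ^ 3 + n.b * (X0 ^ 2 * Y0) + n.c * (X0 * Y0 ^ 2) +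
      n.d * Y0 ^ 3 + n.h1 * X0 ^ 2 + n.h2 * (X0 * Y0) + n.h3 * Y0 ^ 2 + n.l1 * X0 + n.l2 * Y0 = 0
  · obtain ⟨X0, Y0, hC⟩ := hC
    obtain ⟨hn1, hc1⟩ := Aff T1 T2 K a n X0 Y0 0 0 0 hnf q1 q2 q3
    apply hc1
    set n1 := n.aff X0 Y0 0 0 0 with hn1d
    set a1 := tr a (affM X0 Y0 0 0 0)
    have k1 : n1.k = 0 := by
      rw [hn1d]; simp only [NF.aff]; linear_combination hC
    have m11 : n1.m1 = 0 := by rw [hn1d]; simp only [NF.aff]; linear_combination m1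
    have m21 : n1.m2 = 0 := by rw [hn1d]; simp only [NF.aff]; linear_combination m2
    have m31 : n1.m3 = 1 := by
      rw [hn1d]; simp only [NF.aff]; linear_combination X0 * m1 + Y0 * m2 + hm3
    have han1 : n1.Aniso := han
    by_cases hsp : n1.m3 ^ 2 * n1.h1 = n1.l1 ^ 2 ∧ n1.h2 = 0 ∧ n1.m3 ^ 2 * n1.h3 = n1.l2 ^ 2
    · obtain ⟨s1, s2, s3⟩ := hsp
      rw [m31] at s1 s3
      obtain ⟨hn2, hc2⟩ := Aff T1 T2 K a1 n1 0 0 n1.l1 n1.l2 0 hn1 rfl rfl rfl
      apply hc2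
      refine fin1 hn2 two rfl rfl rfl ?_ ?_ ?_ ?_ ?_ hbc ?_ ?_ ?_ ?_ ?_ ?_
      · simp only [NF.aff]; rw [m11]; linear_combination n1.l1 * two
      · simp only [NF.aff]; rw [m21]; linear_combination n1.l2 * two
      · simp only [NF.aff]; rw [m31, m11, m21]; ring
      · exact ha
      · exact hd
      · simp only [NF.aff]; rw [m11]; linear_combination s1 + n1.l1 ^ 2 * two
      · simp only [NF.aff]; rw [m11, m21]; linear_combination s2 + n1.l1 * n1.l2 * two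
      · simp only [NF.aff]; rw [m21]; linear_combination s3 + n1.l2 ^ 2 * two
      · simp only [NF.aff]; rw [m11, m21, m31]; linear_combination n1.l1 * two
      · simp only [NF.aff]; rw [m11, m21, m31]; linear_combination n1.l2 * two
      · simp only [NF.aff]; rw [k1]; ring
    · refine Ev1 U V K a1 n1 two hn1 rfl rfl rfl m11 m21 ?_ k1 han1 hsp
      rw [m31]; exact one_ne_zero
  · push Not at hC
    have c00 := e01 _ (hC 0 0)
    have c10 := e01 _ (hC 1 0)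
    have c01 := e01 _ (hC 0 1)
    have c11 := e01 _ (hC 1 1)
    have hk : n.k = 1 := by linear_combination c00
    have e1 : n.h1 + n.l1 = 1 := by
      rw [ha, hk] at c10
      linear_combination c10 - two
    have e2 : n.h3 + n.l2 = 1 := by
      rw [hd, hk] at c01
      linear_combination c01 - two
    have e3' : n.h2 = 1 := by
      rw [ha, hd, hk] at c11
      linear_combination c11 - e1 - e2 - hbc1 - two * 3
    obtain ⟨hn2, hc2⟩ := Aff T1 T2 K a n 0 0 n.h1 n.h3 0 hnf q1 q2 q3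
    apply hc2
    refine fin2 hn2 two rfl rfl rfl ?_ ?_ ?_ ?_ ?_ hbc ?_ ?_ ?_ ?_ ?_ ?_
    · simp only [NF.aff]; rw [m1]; linear_combination n.h1 * two
    · simp only [NF.aff]; rw [m2]; linear_combination n.h3 * two
    · simp only [NF.aff]; rw [hm3, m1, m2]; ring
    · exact ha
    · exact hd
    · simp only [NF.aff]; rw [m1]; linear_combination sq n.h1 + n.h1 * two
    · simp only [NF.aff]; rw [m1, m2, e3']; linear_combination n.h1 * n.h3 * two
    · simp only [NF.aff]; rw [m2]; linear_combination sq n.h3 + n.h3 * two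
    · simp only [NF.aff]; rw [m1, m2, hm3]; linear_combination e1
    · simp only [NF.aff]; rw [m1, m2, hm3]; linear_combination e2
    · simp only [NF.aff]; rw [hk]; ring

end Pool.Agent.H574R3.CS
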